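import Pool.Agent.K6.H10.AB.Defs

/-!
Holomorphic forms as alternating maps.
-/

set_option autoImplicit false

open FF

namespace Pool.Agent.K6.H10.AB

open Pool.Agent.W602.GT (Divisorial DerReg RegAt)

/-- the holomorphic forms as alternating maps -/
def AF (K : Type) [Field K] [Algebra ℂ K] (n i : ℕ) :
    Submodule ℂ ((Derivation ℂ K K) [⋀^Fin i]→ₗ[K] K) where
  carrier := {ω | ∀ P : Place ℂ K, Divisorial n P → ∀ D : Fin i → Derivation ℂ K K,
    (∀ j, DerReg P (D j)) → P.Reg (ω D)}
  add_mem' := fun {a b} ha hb P hP D hD => by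
    rw [AlternatingMap.add_apply]
    exact P.reg_add (ha P hP D hD) (hb P hP D hD)
  zero_mem' := fun P _ D _ => by
    rw [AlternatingMap.zero_apply]
    exact P.reg_zero
  smul_mem' := fun c a ha P hP D hD => by
    rw [AlternatingMap.smul_apply, Algebra.smul_def]
    exact P.reg_mul (P.reg_const c) (ha P hP D hD)

/-- the comparison -/
noncomputable def toHol (K : Type) [Field K] [Algebra ℂ K] (n i : ℕ) :
    AF K n i →ₗ[ℂ] holForms K n i where
  toFun := fun ω => ⟨fun D => ω.1 D, ⟨ω.1, fun _ => rfl⟩, ω.2⟩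
  map_add' := fun _ _ => rfl
  map_smul' := fun _ _ => rfl

theorem toHol_bij (K : Type) [Field K] [Algebra ℂ K] (n i : ℕ) :
    Function.Bijective (toHol K n i) := by
  refine ⟨fun a b hab => ?_, fun f => ?_⟩
  · refine Subtype.ext (AlternatingMap.ext fun D => ?_)
    exact congrFun (congrArg Subtype.val hab) D
  · obtain ⟨f, ⟨ω, hω⟩, hf⟩ := f
    have h1 : (fun D => ω D) = f := funext hω
    subst h1
    exact ⟨⟨ω, hf⟩, rfl⟩

theorem hodge_eq (K : Type) [Field K] [Algebra ℂ K] (n i : ℕ) :
    hodge K n i = Module.finrank ℂ (AF K n i) :=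
  (LinearEquiv.ofBijective (toHol K n i) (toHol_bij K n i)).finrank_eq.symm

theorem finite_hol (K : Type) [Field K] [Algebra ℂ K] (n i : ℕ) (h : Module.Finite ℂ (AF K n i)) :
    Module.Finite ℂ (holForms K n i) :=
  Module.Finite.equiv (LinearEquiv.ofBijective (toHol K n i) (toHol_bij K n i))

end Pool.Agent.K6.H10.AB
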