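import Pool.Agent.K6.H10.AB.One
import Pool.Agent.K6.H10.AB.AltDef
import Pool.Agent.R885.G10

/-!
The spaces of holomorphic forms on the threefold have finite dimension.
-/

set_option autoImplicit false
set_option linter.overlappingInstances false
set_option linter.unusedSectionVars false
set_option maxHeartbeats 4000000
set_option synthInstance.maxHeartbeats 400000

open FF IntermediateField

namespace Pool.Agent.K6.H10.AB

open Pool.Agent.W603.LV Pool.Agent.Helper11K9.PC
open Pool.Agent.W602.GT (Divisorial RegAt IsPluri DerReg)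
open Pool.Agent.Helper11K9.EC (dif Reg1 cf cf_reg cf_apply RegForm)

section

variable {K : Type} [Field K] [Algebra ℂ K] {x y : Fin 4 → K} {L : IntermediateField ℂ K}
  {E : Fin 3 → Derivation ℂ K K}

/-- the exterior product of linear forms -/
noncomputable def detAlt {n : ℕ} (η : Fin n → (Derivation ℂ K K →ₗ[K] K)) :
    (Derivation ℂ K K) [⋀^Fin n]→ₗ[K] K :=
  (Matrix.detRowAlternating (R := K) (n := Fin n)).compLinearMap (LinearMap.pi η)

theorem detAlt_apply {n : ℕ} (η : Fin n → (Derivation ℂ K K →ₗ[K] K))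
    (D : Fin n → Derivation ℂ K K) : detAlt η D = detForm η D := rfl

/-- the basis of vector fields -/
theorem Frame.exists_basis (h : Dat x y) (fr : Frame x y L E) :
    ∃ b : Module.Basis (Fin 3) K (Derivation ℂ K K), (∀ i, b i = E i) ∧
      ∀ δ i, b.repr δ i = Th x y i δ := by
  have hE := fr.thE h
  have hli : LinearIndependent K E := by
    rw [Fintype.linearIndependent_iff]
    intro g hg i
    have h1 := congrArg (Th x y i) hg
    rw [map_zero, map_sum, Finset.sum_eq_single i] at h1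
    · rw [map_smul, hE, if_pos rfl, smul_eq_mul, mul_one] at h1
      exact h1
    · intro j _ hj
      rw [map_smul, hE, if_neg hj, smul_zero]
    · intro hi
      exact absurd (Finset.mem_univ i) hi
  have hsp : ⊤ ≤ Submodule.span K (Set.range E) := by
    intro δ _
    rw [← fr.exp δ]
    exact Submodule.sum_mem _ fun i _ => Submodule.smul_mem _ _ (Submodule.subset_span ⟨i, rfl⟩)
  have hb : ∀ i, Module.Basis.mk hli hsp i = E i := fun i => Module.Basis.mk_apply hli hsp i
  refine ⟨Module.Basis.mk hli hsp, hb, fun δ i => ?_⟩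
  conv_lhs => rw [← fr.exp δ]
  rw [map_sum, Finset.sum_apply']
  rw [Finset.sum_eq_single i]
  · rw [map_smul, ← hb i, Module.Basis.repr_self, Finsupp.smul_apply, Finsupp.single_eq_same,
      smul_eq_mul, mul_one]
  · intro j _ hj
    rw [map_smul, ← hb j, Module.Basis.repr_self, Finsupp.smul_apply,
      Finsupp.single_eq_of_ne (Ne.symm hj), smul_zero]
  · intro hi
    exact absurd (Finset.mem_univ i) hi

/-- forms of the top degree -/
theorem Frame.alt_eq (h : Dat x y) (fr : Frame x y L E)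
    (W : (Derivation ℂ K K) [⋀^Fin 3]→ₗ[K] K) (D : Fin 3 → Derivation ℂ K K) :
    W D = W E * detForm (Th x y) D := by
  obtain ⟨b, hb, hr⟩ := fr.exists_basis h
  have h1 := W.eq_smul_basis_det b
  have h2 : (b : Fin 3 → Derivation ℂ K K) = E := funext hb
  rw [h2] at h1
  conv_lhs => rw [h1]
  rw [AlternatingMap.smul_apply, smul_eq_mul, Module.Basis.det_apply]
  congr 1
  unfold detForm
  rw [← Matrix.det_transpose]
  congr 1
  ext i j
  rw [Matrix.transpose_apply, Module.Basis.toMatrix_apply, hr]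
  rfl

theorem Frame.alt_pluri (h : Dat x y) (fr : Frame x y L E)
    (W : (Derivation ℂ K K) [⋀^Fin 3]→ₗ[K] K) : IsPluri 1 (fun D => W D) := by
  intro A D
  change W _ = A.det ^ 1 * W D
  rw [fr.alt_eq h, fr.alt_eq h W D, detForm_pluri]
  ring

theorem mem_hol {n i : ℕ} {ω : (Derivation ℂ K K) [⋀^Fin i]→ₗ[K] K} :
    ω ∈ AF K n i ↔ ∀ P : Place ℂ K, Divisorial n P → RegAt P (fun D => ω D) := Iff.rfl

noncomputable local instance holAG (n i : ℕ) : AddCommGroup (AF K n i) :=
  Submodule.addCommGroup _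

/-- the coefficients of the regular canonical forms -/
def V3 (x y : Fin 4 → K) : Submodule ℂ K where
  carrier := {f | ∀ P : Place ℂ K, Divisorial 3 P → ∀ D : Fin 3 → Derivation ℂ K K,
    (∀ j, DerReg P (D j)) → P.Reg (f * detForm (Th x y) D)}
  add_mem' := fun {a b} ha hb P hP D hD => by
    rw [add_mul]
    exact P.reg_add (ha P hP D hD) (hb P hP D hD)
  zero_mem' := fun P _ D _ => by
    rw [zero_mul]
    exact P.reg_zero
  smul_mem' := fun c a ha P hP D hD => by
    rw [Algebra.smul_def, mul_assoc]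
    exact P.reg_mul (P.reg_const c) (ha P hP D hD)

theorem mem_V3 {f : K} : f ∈ V3 x y ↔ ∀ P : Place ℂ K, Divisorial 3 P →
    ∀ D : Fin 3 → Derivation ℂ K K, (∀ j, DerReg P (D j)) →
      P.Reg (f * detForm (Th x y) D) := Iff.rfl

theorem Frame.detE (h : Dat x y) (fr : Frame x y L E) : detForm (Th x y) E = 1 := by
  unfold detForm
  have h2 : (Matrix.of fun i j => Th x y j (E i) : Matrix (Fin 3) (Fin 3) K) = 1 := by
    ext i j
    rw [Matrix.of_apply, fr.thE h, Matrix.one_apply]
  rw [h2, Matrix.det_one]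

theorem V3_sec (f : K) (hf : f ∈ V3 x y) :
    Pool.Agent.Y174.PairSec ℂ K 3 (fun _ => (0 : ℝ)) {1} 1 1
      (fun D => f * detForm (Th x y) D) := by
  refine ⟨?_, ?_⟩
  · have h1 : IsPluri 1 (fun D => f * detForm (Th x y) D) := by
      intro A D
      change f * _ = A.det ^ 1 * (f * _)
      rw [detForm_pluri]
      ring
    exact h1
  · intro v hv D hD
    rcases mem_V3.1 hf v hv D hD with h3 | h3
    · exact Or.inl h3
    · right
      refine ⟨1, Finset.mem_singleton_self _, one_ne_zero, ?_⟩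
      have h4 : (0 : ℝ) ≤ (v.ord (f * detForm (Th x y) D) : ℝ) := by
        exact_mod_cast h3
      rw [v.ord_one]
      simpa using h4

/-- the canonical forms have finite dimension -/
theorem finite_V3 (h : Dat x y) : Module.Finite ℂ (V3 x y) := by
  obtain ⟨L, E, fr⟩ := exists_frame h
  have hess := h.ess
  have h1 := Pool.Agent.R885.pair_top (k := ℂ) (K := K) hess h.deg (δ := fun _ => (0 : ℝ))
    (G := ∅) (fun P hP => absurd hP (lt_irrefl _)) (fun P => zero_le_one)
  obtain ⟨C, hC⟩ := h1 {1}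
  have h2 : ∀ (N : ℕ) (f : Fin N → V3 x y), LinearIndependent ℂ f → N ≤ C * 1 ^ 3 := by
    intro N f hf
    apply hC 1 N le_rfl
    have h5 : LinearIndependent ℂ (fun l D => (f l : K) * detForm (Th x y) D :
        Fin N → (Fin 3 → Derivation ℂ K K) → K) := by
      rw [Fintype.linearIndependent_iff]
      intro c hc
      rw [Fintype.linearIndependent_iff] at hf
      apply hf
      apply Subtype.ext
      have h6 := congrFun hc E
      rw [Finset.sum_apply] at h6
      rw [Submodule.coe_sum]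
      refine Eq.trans (Finset.sum_congr rfl fun l _ => ?_) h6
      rw [Pi.smul_apply, fr.detE h, mul_one]
      rfl
    exact ⟨_, h5, fun l => V3_sec (x := x) (y := y) ((f l : V3 x y) : K) (f l).2⟩
  have h3 : Module.rank ℂ (V3 x y) ≤ (C * 1 ^ 3 : ℕ) := by
    refine rank_le fun s hs => ?_
    exact h2 s.card _ (hs.comp _ s.equivFin.symm.injective)
  have h4 : Module.rank ℂ (V3 x y) < Cardinal.aleph0 :=
    h3.trans_lt Cardinal.natCast_lt_aleph0
  exact Module.rank_lt_aleph0_iff.1 h4

theorem finite_three (h : Dat x y) : Module.Finite ℂ (AF K 3 3) := by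
  obtain ⟨L, E, fr⟩ := exists_frame h
  have hV := finite_V3 h
  let ev : AF K 3 3 →ₗ[ℂ] V3 x y :=
    { toFun := fun ω => ⟨ω.1 E, fun P hP D hD => by
        rw [← fr.alt_eq h]
        exact ω.2 P hP D hD⟩
      map_add' := fun _ _ => rfl
      map_smul' := fun _ _ => rfl }
  refine Module.Finite.of_injective ev fun a b hab => ?_
  refine Subtype.ext (AlternatingMap.ext fun D => ?_)
  have h1 : a.1 E = b.1 E := congrArg Subtype.val hab
  rw [fr.alt_eq h a.1, fr.alt_eq h b.1, h1]

/-- functions -/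
theorem finite_zero (h : Dat x y) : Module.Finite ℂ (AF K 3 0) := by
  have hV := finite_V3 h
  let ev : AF K 3 0 →ₗ[ℂ] V3 x y :=
    { toFun := fun ω => ⟨ω.1 Fin.elim0, fun P hP D hD =>
        P.reg_mul (ω.2 P hP Fin.elim0 fun j => j.elim0)
          (detForm_reg (fun j => h.thet_reg _ P) D hD)⟩
      map_add' := fun _ _ => rfl
      map_smul' := fun _ _ => rfl }
  refine Module.Finite.of_injective ev fun a b hab => ?_
  refine Subtype.ext (AlternatingMap.ext fun D => ?_)
  have h1 : a.1 Fin.elim0 = b.1 Fin.elim0 := congrArg Subtype.val hab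
  have h2 : D = Fin.elim0 := Subsingleton.elim _ _
  rw [h2, h1]

theorem two_lin1 (ω : (Derivation ℂ K K) [⋀^Fin 2]→ₗ[K] K) (c : Derivation ℂ K K) :
    ∃ f : Derivation ℂ K K →ₗ[K] K, ∀ a, f a = ω ![a, c] := by
  refine ⟨ω.toMultilinearMap.toLinearMap ![0, c] 0, fun a => ?_⟩
  change ω (Function.update ![0, c] 0 a) = ω ![a, c]
  congr 1
  funext i
  fin_cases i <;> simp

theorem two_swap (ω : (Derivation ℂ K K) [⋀^Fin 2]→ₗ[K] K) (a b : Derivation ℂ K K) :
    ω ![b, a] = -ω ![a, b] := by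
  have h1 := ω.map_swap ![a, b] (i := 0) (j := 1) (by decide)
  rw [← h1]
  congr 1
  funext i
  fin_cases i <;> simp

theorem two_self (ω : (Derivation ℂ K K) [⋀^Fin 2]→ₗ[K] K) (a : Derivation ℂ K K) :
    ω ![a, a] = 0 :=
  ω.map_eq_zero_of_eq _ (i := 0) (j := 1) rfl (by decide)

theorem Frame.lin_exp (fr : Frame x y L E) (f : Derivation ℂ K K →ₗ[K] K)
    (D : Derivation ℂ K K) : f D = Th x y 0 D * f (E 0) + Th x y 1 D * f (E 1) +
      Th x y 2 D * f (E 2) := by
  conv_lhs => rw [← fr.exp D]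
  rw [map_sum, Fin.sum_univ_three, map_smul, map_smul, map_smul]
  rfl

theorem two_exp (fr : Frame x y L E) (ω : (Derivation ℂ K K) [⋀^Fin 2]→ₗ[K] K)
    (D D' : Derivation ℂ K K) : ω ![D, D'] =
      (Th x y 0 D * Th x y 1 D' - Th x y 1 D * Th x y 0 D') * ω ![E 0, E 1] +
      (Th x y 0 D * Th x y 2 D' - Th x y 2 D * Th x y 0 D') * ω ![E 0, E 2] +
      (Th x y 1 D * Th x y 2 D' - Th x y 2 D * Th x y 1 D') * ω ![E 1, E 2] := by
  have key : ∀ a c, ω ![a, c] = Th x y 0 a * ω ![E 0, c] + Th x y 1 a * ω ![E 1, c] +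
      Th x y 2 a * ω ![E 2, c] := by
    intro a c
    obtain ⟨f, hf⟩ := two_lin1 ω c
    rw [← hf, ← hf, ← hf, ← hf]
    exact fr.lin_exp f a
  have key2 : ∀ i, ω ![E i, D'] = Th x y 0 D' * ω ![E i, E 0] + Th x y 1 D' * ω ![E i, E 1] +
      Th x y 2 D' * ω ![E i, E 2] := by
    intro i
    have h1 := key D' (E i)
    rw [two_swap ω D' (E i), h1, two_swap ω (E i) (E 0), two_swap ω (E i) (E 1),
      two_swap ω (E i) (E 2)]
    ring
  rw [key, key2, key2, key2, two_self, two_self, two_self, two_swap ω (E 0) (E 1),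
    two_swap ω (E 0) (E 2), two_swap ω (E 1) (E 2)]
  ring

theorem vec2 {M : Type} (v : Fin 2 → M) : v = ![v 0, v 1] := by
  funext i
  fin_cases i <;> rfl

/-- the `2`-forms have finite dimension -/
theorem finite_two (h : Dat x y) : Module.Finite ℂ (AF K 3 2) := by
  obtain ⟨L, E, fr⟩ := exists_frame h
  have hV := finite_V3 h
  have hreg : ∀ (ω : AF K 3 2) (P : Place ℂ K), Divisorial 3 P → ∀ a b, DerReg P a →
      DerReg P b → P.Reg (ω.1 ![a, b]) := fun ω P hP a b ha hb =>
    ω.2 P hP _ (fun j => by fin_cases j <;> assumption)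
  have hT : ∀ (P : Place ℂ K) (D : Derivation ℂ K K), DerReg P D → ∀ j, P.Reg (Th x y j D) :=
    fun P D hD j => h.thet_reg _ P D hD
  have h01 : ∀ ω : AF K 3 2, ω.1 ![E 0, E 1] ∈ V3 x y := fun ω P hP D hD => by
      have e : ω.1 ![E 0, E 1] * detForm (Th x y) D = ω.1 ![D 0, D 1] * Th x y 2 (D 2) +
          -(ω.1 ![D 0, D 2] * Th x y 2 (D 1)) + ω.1 ![D 1, D 2] * Th x y 2 (D 0) := by
        rw [two_exp fr ω.1 (D 0) (D 1), two_exp fr ω.1 (D 0) (D 2), two_exp fr ω.1 (D 1) (D 2)]
        unfold detForm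
        rw [Matrix.det_fin_three]
        simp only [Matrix.of_apply]
        ring
      rw [e]
      exact P.reg_add (P.reg_add (P.reg_mul (hreg ω P hP _ _ (hD 0) (hD 1)) (hT P _ (hD 2) 2))
        (P.reg_neg (P.reg_mul (hreg ω P hP _ _ (hD 0) (hD 2)) (hT P _ (hD 1) 2))))
        (P.reg_mul (hreg ω P hP _ _ (hD 1) (hD 2)) (hT P _ (hD 0) 2))
  have h02 : ∀ ω : AF K 3 2, ω.1 ![E 0, E 2] ∈ V3 x y := fun ω P hP D hD => by
      have e : ω.1 ![E 0, E 2] * detForm (Th x y) D = -(ω.1 ![D 0, D 1] * Th x y 1 (D 2)) +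
          ω.1 ![D 0, D 2] * Th x y 1 (D 1) + -(ω.1 ![D 1, D 2] * Th x y 1 (D 0)) := by
        rw [two_exp fr ω.1 (D 0) (D 1), two_exp fr ω.1 (D 0) (D 2), two_exp fr ω.1 (D 1) (D 2)]
        unfold detForm
        rw [Matrix.det_fin_three]
        simp only [Matrix.of_apply]
        ring
      rw [e]
      exact P.reg_add (P.reg_add (P.reg_neg (P.reg_mul (hreg ω P hP _ _ (hD 0) (hD 1))
        (hT P _ (hD 2) 1))) (P.reg_mul (hreg ω P hP _ _ (hD 0) (hD 2)) (hT P _ (hD 1) 1)))
        (P.reg_neg (P.reg_mul (hreg ω P hP _ _ (hD 1) (hD 2)) (hT P _ (hD 0) 1)))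
  have h12 : ∀ ω : AF K 3 2, ω.1 ![E 1, E 2] ∈ V3 x y := fun ω P hP D hD => by
      have e : ω.1 ![E 1, E 2] * detForm (Th x y) D = ω.1 ![D 0, D 1] * Th x y 0 (D 2) +
          -(ω.1 ![D 0, D 2] * Th x y 0 (D 1)) + ω.1 ![D 1, D 2] * Th x y 0 (D 0) := by
        rw [two_exp fr ω.1 (D 0) (D 1), two_exp fr ω.1 (D 0) (D 2), two_exp fr ω.1 (D 1) (D 2)]
        unfold detForm
        rw [Matrix.det_fin_three]
        simp only [Matrix.of_apply]
        ring
      rw [e]
      exact P.reg_add (P.reg_add (P.reg_mul (hreg ω P hP _ _ (hD 0) (hD 1)) (hT P _ (hD 2) 0))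
        (P.reg_neg (P.reg_mul (hreg ω P hP _ _ (hD 0) (hD 2)) (hT P _ (hD 1) 0))))
        (P.reg_mul (hreg ω P hP _ _ (hD 1) (hD 2)) (hT P _ (hD 0) 0))
  let ev : AF K 3 2 →ₗ[ℂ] (V3 x y × V3 x y × V3 x y) :=
    { toFun := fun ω => (⟨_, h01 ω⟩, ⟨_, h02 ω⟩, ⟨_, h12 ω⟩)
      map_add' := fun _ _ => rfl
      map_smul' := fun _ _ => rfl }
  refine Module.Finite.of_injective ev fun a b hab => ?_
  have e1 : a.1 ![E 0, E 1] = b.1 ![E 0, E 1] := congrArg (fun z => (z.1 : K)) hab
  have e2 : a.1 ![E 0, E 2] = b.1 ![E 0, E 2] := congrArg (fun z => (z.2.1 : K)) hab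
  have e3 : a.1 ![E 1, E 2] = b.1 ![E 1, E 2] := congrArg (fun z => (z.2.2 : K)) hab
  refine Subtype.ext (AlternatingMap.ext fun D => ?_)
  rw [vec2 D, two_exp fr a.1, two_exp fr b.1, e1, e2, e3]

/-- the four `1`-forms -/
noncomputable def oneF (h : Dat x y) (i : Fin 4) : AF K 3 1 :=
  ⟨detAlt fun _ : Fin 1 => thet (x i) (y i), fun P _ D hD =>
    detForm_reg (fun _ => h.thet_reg i P) D hD⟩

theorem oneF_apply (h : Dat x y) (i : Fin 4) (D : Fin 1 → Derivation ℂ K K) :
    (oneF h i).1 D = thet (x i) (y i) (D 0) := by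
  change detForm (fun _ : Fin 1 => thet (x i) (y i)) D = _
  unfold detForm
  rw [Matrix.det_unique]
  rfl

theorem hol_sum {n i : ℕ} {ι : Type} (s : Finset ι) (f : ι → AF K n i)
    (D : Fin i → Derivation ℂ K K) : (∑ j ∈ s, f j).1 D = ∑ j ∈ s, (f j).1 D := by
  classical
  induction s using Finset.induction_on with
  | empty => rfl
  | insert a s ha ih =>
    rw [Finset.sum_insert ha, Finset.sum_insert ha, ← ih]
    rfl

theorem hol_smul {n i : ℕ} (c : ℂ) (f : AF K n i) (D : Fin i → Derivation ℂ K K) :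
    (c • f).1 D = algebraMap ℂ K c * f.1 D := by
  rw [← Algebra.smul_def]
  rfl

theorem oneF_li (h : Dat x y) : LinearIndependent ℂ (oneF h) := by
  rw [Fintype.linearIndependent_iff]
  intro c hc i
  have h1 : c = 0 := by
    refine theta_li h fun δ => ?_
    have h2 := congrArg (fun ω : AF K 3 1 => ω.1 fun _ => δ) hc
    change (∑ i, c i • oneF h i : AF K 3 1).1 (fun _ => δ) = (0 : K) at h2
    rw [← h2, hol_sum]
    refine Finset.sum_congr rfl fun j _ => ?_
    rw [hol_smul, oneF_apply]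
  rw [h1]
  rfl

theorem oneF_span (h : Dat x y) : ⊤ ≤ Submodule.span ℂ (Set.range (oneF h)) := by
  intro ω _
  obtain ⟨c, hc⟩ := one_forms h (η := ω.1.toMultilinearMap.toLinearMap (fun _ => 0) 0)
    (fun P hP δ hδ => ω.2 P hP _ fun j => by
      rw [Subsingleton.elim j 0, Function.update_self]
      exact hδ)
  have h1 : ω = ∑ i, c i • oneF h i := by
    refine Subtype.ext (AlternatingMap.ext fun D => ?_)
    rw [hol_sum]
    have h2 := hc (D 0)
    have h3 : D = Function.update (fun _ => 0) 0 (D 0) := by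
      funext i
      rw [Subsingleton.elim i 0, Function.update_self]
    have h4 : ω.1 D = ω.1.toMultilinearMap.toLinearMap (fun _ => 0) 0 (D 0) := by
      conv_lhs => rw [h3]
      rfl
    rw [h4, h2]
    refine Finset.sum_congr rfl fun j _ => ?_
    rw [hol_smul, oneF_apply]
  rw [h1]
  exact Submodule.sum_mem _ fun i _ => Submodule.smul_mem _ _ (Submodule.subset_span ⟨i, rfl⟩)

/-- **The irregularity is four.** -/
theorem irr_eq (h : Dat x y) : Module.Finite ℂ (AF K 3 1) ∧ irregularity K 3 = 4 := by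
  let b := Module.Basis.mk (oneF_li h) (oneF_span h)
  refine ⟨Module.Finite.of_basis b, ?_⟩
  unfold irregularity
  rw [hodge_eq]
  rw [Module.finrank_eq_card_basis b, Fintype.card_fin]

/-- forms of large degree -/
theorem finite_big (h : Dat x y) {i : ℕ} (hi : 3 < i) : Module.Finite ℂ (AF K 3 i) := by
  obtain ⟨L, E, fr⟩ := exists_frame h
  obtain ⟨b, -, -⟩ := fr.exists_basis h
  have h0 : ∀ ω : AF K 3 i, ω = 0 := by
    intro ω
    refine Subtype.ext (AlternatingMap.ext fun D => ?_)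
    refine ω.1.map_linearDependent D fun hli => ?_
    have hfin : Module.Finite K (Derivation ℂ K K) := Module.Finite.of_basis b
    have h1 := hli.fintype_card_le_finrank
    rw [Module.finrank_eq_card_basis b, Fintype.card_fin, Fintype.card_fin] at h1
    omega
  have : Subsingleton (AF K 3 i) := ⟨fun a b => by rw [h0 a, h0 b]⟩
  infer_instance

theorem finite_all (h : Dat x y) : FiniteForms K 3 := by
  intro i
  apply finite_hol
  rcases Nat.lt_or_ge 3 i with hi | hi
  · exact finite_big h hi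
  · interval_cases i
    · exact finite_zero h
    · exact (irr_eq h).1
    · exact finite_two h
    · exact finite_three h

end

end Pool.Agent.K6.H10.AB
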