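import Pool.Agent.Helper11K9.EC.Form
import Pool.Agent.R882.GLc

/-!
The ratio of a regular canonical form and a canonical form which generates the regular differentials
of the fibres of a fibration by curves comes from the base.
-/

set_option autoImplicit false
set_option linter.overlappingInstances false
set_option linter.unusedSectionVars false
set_option maxHeartbeats 4000000
set_option synthInstance.maxHeartbeats 400000

open IntermediateField Module FF Pool.Agent.W619.PQ Pool.Agent.W603.LV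
open Pool.Agent.W602.GT (Divisorial RegAt IsPluri)
open Pool.Agent.R882.GL (SpanFib reg_res)

namespace Pool.Agent.K6.H10.AB

variable {K : Type} [Field K] [Algebra ℂ K] {n : ℕ}

section

variable {B Λ F : Type} [Field B] [Field Λ] [Field F] [Algebra ℂ B] [Algebra B K]
  [IsScalarTower ℂ B K] [Algebra B Λ] [Algebra Λ F] [Algebra K F] [Algebra B F]
  [IsScalarTower B Λ F] [IsScalarTower B K F] [Algebra ℂ Λ] [Algebra ℂ F] [IsScalarTower ℂ Λ F]
  [IsScalarTower ℂ K F] [IsScalarTower ℂ B Λ] [Algebra.IsAlgebraic B Λ] [IsAlgClosed Λ]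

theorem ratio_abs [hess : Algebra.EssFiniteType ℂ K] (hK : Algebra.trdeg ℂ K = (n + 1 : ℕ))
    (hB : Algebra.trdeg ℂ B = n)
    (hcl : ∀ x : K, IsIntegral B x → ∃ y : B, algebraMap B K y = x)
    (hgenF : IntermediateField.adjoin Λ (Set.range (algebraMap K F)) = ⊤)
    {ω0 : (Fin (n + 1) → Derivation ℂ K K) → K} (hω0 : IsPluri 1 ω0)
    (hreg0 : ∀ (P : Place ℂ K), Divisorial (n + 1) P → RegAt P ω0) (hne : ∃ D, ω0 D ≠ 0)
    (hspan : ∀ (t : Fin n → K) (ξ : K), (∀ j, t j ∈ Set.range (algebraMap B K)) →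
      IsTranscendenceBasis ℂ (Fin.append t (fun _ : Fin 1 => ξ)) →
      ∀ E : Fin (n + 1) → Derivation ℂ K K,
      (∀ i j, E i (Fin.append t (fun _ : Fin 1 => ξ) j) = if i = j then 1 else 0) →
      ∀ D : Derivation Λ F F, D (algebraMap K F ξ) = 1 →
      (∀ (_ : Unit) (Q : Place Λ F), algebraMap K F (ω0 E) = 0 ∨
        vo Q D ≤ Q.ord (algebraMap K F (ω0 E))) →
      ∀ f : F, f ≠ 0 → (∀ Q : Place Λ F, vo Q D ≤ Q.ord f) →
        f ∈ Submodule.span Λ (Set.range fun _ : Unit => algebraMap K F (ω0 E)))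
    {ω : (Fin (n + 1) → Derivation ℂ K K) → K} (hω : IsPluri 1 ω)
    (hreg : ∀ (P : Place ℂ K), Divisorial (n + 1) P → RegAt P ω) {f : K}
    (hf : ∀ D, ω D = f * ω0 D) : ∃ b : B, algebraMap B K b = f := by
  classical
  have hB0 : CharZero B := charZero_of_injective_algebraMap (algebraMap ℂ B).injective
  have hΛ0 : CharZero Λ := charZero_of_injective_algebraMap (algebraMap B Λ).injective
  -- the coordinates
  obtain ⟨tB, htB⟩ := Pool.Agent.W636.PG.exists_basis ℂ B n hB
  have hLK : Algebra.trdeg B K = (1 : ℕ) :=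
    Pool.Agent.Y174.trdeg_LK (r := 1) hB hK
  obtain ⟨ξ, hξ⟩ : ∃ ξ : K, ¬ IsAlgebraic B ξ := by
    by_contra hcon
    push Not at hcon
    have h2 : Algebra.IsAlgebraic B K := ⟨hcon⟩
    have h3 : Algebra.trdeg B K = 0 := trdeg_eq_zero
    rw [h3] at hLK
    have h4 : (0 : ℕ) = 1 := by exact_mod_cast hLK
    exact zero_ne_one h4
  have hxB : IsTranscendenceBasis B (fun _ : Fin (0 + 1) => ξ) := by
    have h1 : AlgebraicIndependent B (fun _ : Fin (0 + 1) => ξ) := by
      have : Unique (Fin (0 + 1)) := inferInstanceAs (Unique (Fin 1))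
      rw [algebraicIndependent_unique_type_iff]
      exact hξ
    refine h1.isTranscendenceBasis_of_lift_trdeg_le_of_finite ?_
    rw [hLK]
    simp
  have hZ := Pool.Agent.Y174.basis_append htB hxB
  obtain ⟨Ef, hEd⟩ := Pool.Agent.W636.PG.exists_duals ℂ K (n + 1) _ hZ
  have hne' : ω0 Ef ≠ 0 := by
    obtain ⟨D, hD⟩ := hne
    intro h0
    apply hD
    rw [Pool.Agent.Y172.pluri_coord hZ hEd hω0 D, h0, mul_zero]
  by_cases h00 : ω Ef = 0
  · refine ⟨0, ?_⟩
    rw [map_zero]
    have h1 := hf Ef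
    rw [h00] at h1
    exact ((mul_eq_zero.1 h1.symm).resolve_right hne').symm
  -- the fibre
  have htrF : Algebra.trdeg Λ F = (1 : ℕ) :=
    Pool.Agent.Y174.trdeg_F (L := B) (K := K) hLK hgenF
  have hessF : Algebra.EssFiniteType Λ F := Pool.Agent.Y174.ess_F (k := ℂ) (K := K) hess hgenF
  have hFF : IsFF Λ F := ⟨hessF, by rw [htrF]; simp⟩
  have hKFalg : Algebra.IsAlgebraic K F := Pool.Agent.Y174.alg_KF (L := B) hgenF
  have hξF : Transcendental Λ (algebraMap K F ξ) := by
    intro h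
    apply hξ
    have h1 : IsAlgebraic B (algebraMap K F ξ) := h.restrictScalars B
    exact (isAlgebraic_algebraMap_iff (R := B) (algebraMap K F).injective).1 h1
  have hd0 := der_ne (k := Λ) (K := F)
  have hd1 := der_ne_zero hd0 hξF
  obtain ⟨D, hDd⟩ : ∃ D : Derivation Λ F F, D = (der Λ F (algebraMap K F ξ))⁻¹ • der Λ F :=
    ⟨_, rfl⟩
  have hD1 : D (algebraMap K F ξ) = 1 := by
    rw [hDd, Derivation.smul_apply, smul_eq_mul, inv_mul_cancel₀ hd1]
  have h1 := hspan (algebraMap B K ∘ tB) ξ (fun j => ⟨tB j, rfl⟩) hZ Ef hEd D hD1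
    (fun _ Q => reg_res (Λ := Λ) hK hFF htB hxB hEd hD1 hω0 hreg0 Q)
    (algebraMap K F (ω Ef)) ((_root_.map_ne_zero _).2 h00)
    (fun Q => (reg_res (Λ := Λ) hK hFF htB hxB hEd hD1 hω hreg Q).resolve_left
      ((_root_.map_ne_zero _).2 h00))
  rw [Set.range_const, Submodule.mem_span_singleton] at h1
  obtain ⟨a, ha⟩ := h1
  rw [hf, map_mul, Algebra.smul_def] at ha
  have h2 := mul_right_cancel₀ ((_root_.map_ne_zero (algebraMap K F)).2 hne') ha
  apply hcl
  apply IsAlgebraic.isIntegral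
  have h3 : IsAlgebraic B (algebraMap K F f) := by
    rw [← h2]
    exact (Algebra.IsAlgebraic.isAlgebraic (R := B) a).algebraMap
  exact (isAlgebraic_algebraMap_iff (R := B) (algebraMap K F).injective).1 h3

end

/-- **The ratio comes from the base.** -/
theorem ratio_mem [hess : Algebra.EssFiniteType ℂ K] (hK : Algebra.trdeg ℂ K = (n + 1 : ℕ))
    (B : IntermediateField ℂ K) (hB : Algebra.trdeg ℂ B = n)
    (hcl : ∀ z : K, IsAlgebraic B z → z ∈ B)
    {ω0 : (Fin (n + 1) → Derivation ℂ K K) → K} (hω0 : IsPluri 1 ω0)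
    (hreg0 : ∀ (P : Place ℂ K), Divisorial (n + 1) P → RegAt P ω0) (hne : ∃ D, ω0 D ≠ 0)
    (hspan : SpanFib (J := Unit) B (fun _ => ω0))
    {ω : (Fin (n + 1) → Derivation ℂ K K) → K} (hω : IsPluri 1 ω)
    (hreg : ∀ (P : Place ℂ K), Divisorial (n + 1) P → RegAt P ω) {f : K}
    (hf : ∀ D, ω D = f * ω0 D) : f ∈ B := by
  classical
  have hcl' : ∀ z : K, IsIntegral B z → ∃ y : B, algebraMap B K y = z := fun z hz =>
    ⟨⟨z, hcl z hz.isAlgebraic⟩, rfl⟩
  let Ω := AlgebraicClosure K
  let Λ : IntermediateField B Ω := algebraicClosure B Ω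
  have hΛ : IsAlgClosed Λ := (algebraicClosure.isAlgClosure B Ω).isAlgClosed
  have hΛalg : Algebra.IsAlgebraic B Λ := inferInstance
  let F : IntermediateField Λ Ω := IntermediateField.adjoin Λ (Set.range (algebraMap K Ω))
  have hTL : IsScalarTower ℂ B Ω := IsScalarTower.of_algebraMap_eq fun z => by
    rw [IsScalarTower.algebraMap_apply ℂ K Ω]
    rfl
  have hTΛ : IsScalarTower ℂ Λ Ω := IsScalarTower.of_algebraMap_eq fun z => by
    rw [IsScalarTower.algebraMap_apply ℂ B Ω]
    rfl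
  let φ0 : K →+* F :=
    { toFun := fun z => ⟨algebraMap K Ω z, IntermediateField.subset_adjoin _ _ ⟨z, rfl⟩⟩
      map_one' := Subtype.ext (map_one _)
      map_mul' := fun a b => Subtype.ext (map_mul _ _ _)
      map_zero' := Subtype.ext (map_zero _)
      map_add' := fun a b => Subtype.ext (map_add _ _ _) }
  let iKF : Algebra K F := φ0.toAlgebra
  have hKF : ∀ z : K, ((algebraMap K F z : F) : Ω) = algebraMap K Ω z := fun z => rfl
  have hT1 : IsScalarTower B K F := IsScalarTower.of_algebraMap_eq fun z => Subtype.ext rfl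
  have hT2 : IsScalarTower ℂ K F := IsScalarTower.of_algebraMap_eq fun z => by
    apply Subtype.ext
    rw [hKF, ← IsScalarTower.algebraMap_apply ℂ K Ω]
    rfl
  have hT3 : IsScalarTower ℂ B Λ := inferInstance
  have hT4 : IsScalarTower B Λ F := IsScalarTower.of_algebraMap_eq fun z => Subtype.ext rfl
  have hT5 : IsScalarTower ℂ Λ F := inferInstance
  have hgenF : IntermediateField.adjoin Λ (Set.range (algebraMap K F)) = ⊤ := by
    have h1 : (IntermediateField.adjoin Λ (Set.range (algebraMap K F))).map F.val =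
        (⊤ : IntermediateField Λ F).map F.val := by
      rw [IntermediateField.adjoin_map, ← AlgHom.fieldRange_eq_map,
        IntermediateField.fieldRange_val]
      congr 1
      ext z
      simp only [Set.mem_image, Set.mem_range]
      constructor
      · rintro ⟨_, ⟨y, rfl⟩, rfl⟩
        exact ⟨y, rfl⟩
      · rintro ⟨y, rfl⟩
        exact ⟨_, ⟨y, rfl⟩, rfl⟩
    exact IntermediateField.map_injective _ h1
  have hLK : Algebra.trdeg B K = (1 : ℕ) := Pool.Agent.Y174.trdeg_LK (r := 1) hB hK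
  have htrF : Algebra.trdeg Λ F = (1 : ℕ) :=
    Pool.Agent.Y174.trdeg_F (L := B) (K := K) hLK hgenF
  have hessF : Algebra.EssFiniteType Λ F := Pool.Agent.Y174.ess_F (k := ℂ) (K := K) hess hgenF
  have hFF : IsFF Λ F := ⟨hessF, by rw [htrF]; simp⟩
  have htransc : ∀ z : K, ¬ IsAlgebraic B z → Transcendental Λ (algebraMap K F z) := by
    intro z hz h
    apply hz
    have h1 : IsAlgebraic B (algebraMap K F z) := h.restrictScalars B
    exact (isAlgebraic_algebraMap_iff (R := B) (algebraMap K F).injective).1 h1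
  obtain ⟨b, hb⟩ := ratio_abs (Λ := Λ) (F := F) (B := B) hK hB hcl' hgenF hω0 hreg0 hne
    (fun t ξ ht hZ Ef hEf D hD hregF g hg0 hg =>
      hspan Λ F (IsScalarTower.toAlgHom ℂ K F) hFF hgenF
        (fun z hz => ⟨algebraMap B Λ ⟨z, hz⟩, Subtype.ext rfl⟩) (fun z hz => htransc z hz) t ξ
        (fun j => by
          obtain ⟨b, hb⟩ := ht j
          rw [← hb]
          exact b.2) hZ Ef hEf D hD hregF g hg0 hg) hω hreg hf
  rw [← hb]
  exact b.2

end Pool.Agent.K6.H10.AB
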