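import Pool.Agent.K6.H10.AB.Frame

/-!
The function field of the threefold exists.
-/

set_option autoImplicit false
set_option linter.overlappingInstances false
set_option linter.unusedSectionVars false

open FF IntermediateField

namespace Pool.Agent.K6.H10.AB

theorem exists_alg : ∃ (Ω : Type) (_ : Field Ω) (_ : Algebra ℂ Ω) (_ : IsAlgClosed Ω)
    (z : Fin 3 → Ω), IsTranscendenceBasis ℂ z := by
  have h1 := IsTranscendenceBasis.mvPolynomial (Fin 3) ℂ
  have h2 : Algebra.IsAlgebraic (MvPolynomial (Fin 3) ℂ)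
      (AlgebraicClosure (FractionRing (MvPolynomial (Fin 3) ℂ))) :=
    (IsFractionRing.comap_isAlgebraic_iff (A := MvPolynomial (Fin 3) ℂ)
      (K := FractionRing (MvPolynomial (Fin 3) ℂ))).2 inferInstance
  have h3 : FaithfulSMul (MvPolynomial (Fin 3) ℂ)
      (AlgebraicClosure (FractionRing (MvPolynomial (Fin 3) ℂ))) := by
    rw [faithfulSMul_iff_algebraMap_injective,
      IsScalarTower.algebraMap_eq (MvPolynomial (Fin 3) ℂ)
        (FractionRing (MvPolynomial (Fin 3) ℂ)) (AlgebraicClosure (FractionRing (MvPolynomial (Fin 3) ℂ)))]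
    exact (algebraMap (FractionRing (MvPolynomial (Fin 3) ℂ)) _).injective.comp
      (IsFractionRing.injective _ _)
  exact ⟨AlgebraicClosure (FractionRing (MvPolynomial (Fin 3) ℂ)), inferInstance, inferInstance,
    inferInstance, _, h1.algebraMap_comp
      (A := AlgebraicClosure (FractionRing (MvPolynomial (Fin 3) ℂ)))⟩

theorem x1_transc {Ω : Type} [Field Ω] [Algebra ℂ Ω] {z : Fin 3 → Ω}
    (hz : IsTranscendenceBasis ℂ z) : Transcendental ℂ ((z 1 * z 2) ^ 2 / z 0) := by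
  intro h
  obtain ⟨c, hc⟩ := minpoly.mem_range_of_degree_eq_one ℂ _
    (IsAlgClosed.degree_eq_one_of_irreducible ℂ (minpoly.irreducible h.isIntegral))
  have hz0 : z 0 ≠ 0 := by
    intro h0
    have h1 := hz.1.transcendental 0
    rw [h0] at h1
    exact h1 isAlgebraic_zero
  rw [eq_div_iff hz0] at hc
  have h1 : MvPolynomial.aeval z (MvPolynomial.C c * MvPolynomial.X 0 -
      (MvPolynomial.X 1 * MvPolynomial.X 2) ^ 2 : MvPolynomial (Fin 3) ℂ) = 0 := by
    rw [map_sub, map_mul, map_pow, map_mul, MvPolynomial.aeval_X, MvPolynomial.aeval_X,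
      MvPolynomial.aeval_X, MvPolynomial.aeval_C, hc, sub_self]
  have h2 := (injective_iff_map_eq_zero _).1 hz.1 _ h1
  have h3 := congrArg (MvPolynomial.eval ![0, 1, 1]) h2
  simp at h3

theorem exists_dat : ∃ (K : Type) (_ : Field K) (_ : Algebra ℂ K) (x y : Fin 4 → K),
    Dat x y := by
  obtain ⟨Ω, iΩ, iA, iC, z, hz⟩ := exists_alg
  have hz0 : ∀ i, z i ≠ 0 := by
    intro i h0
    have h1 := hz.1.transcendental i
    rw [h0] at h1
    exact h1 isAlgebraic_zero
  obtain ⟨X, hX⟩ : ∃ X : Fin 4 → Ω, X = ![z 0, (z 1 * z 2) ^ 2 / z 0, z 1, z 2] := ⟨_, rfl⟩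
  have hY : ∀ i, ∃ w : Ω, w ^ 2 = X i ^ 3 + 1 := fun i =>
    IsAlgClosed.exists_pow_nat_eq _ two_pos
  choose Y hY using hY
  obtain ⟨S, hS⟩ : ∃ S : Set Ω, S = Set.range X ∪ Set.range Y := ⟨_, rfl⟩
  obtain ⟨x, hx⟩ : ∃ x : Fin 4 → adjoin ℂ S, ∀ i, (x i : Ω) = X i :=
    ⟨fun i => ⟨X i, subset_adjoin _ _ (by rw [hS]; exact Or.inl ⟨i, rfl⟩)⟩, fun _ => rfl⟩
  obtain ⟨y, hy⟩ : ∃ y : Fin 4 → adjoin ℂ S, ∀ i, (y i : Ω) = Y i :=
    ⟨fun i => ⟨Y i, subset_adjoin _ _ (by rw [hS]; exact Or.inr ⟨i, rfl⟩)⟩, fun _ => rfl⟩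
  have hXt : ∀ i, Transcendental ℂ (X i) := by
    intro i
    rw [hX]
    fin_cases i
    · exact hz.1.transcendental 0
    · exact x1_transc hz
    · exact hz.1.transcendental 1
    · exact hz.1.transcendental 2
  refine ⟨adjoin ℂ S, inferInstance, inferInstance, x, y, ?_, ?_, ?_, ?_, ?_⟩
  · intro i
    apply Subtype.ext
    change (y i : Ω) ^ 2 = (x i : Ω) ^ 3 + 1
    rw [hx, hy]
    exact hY i
  · apply Subtype.ext
    change (x 0 : Ω) * (x 1 : Ω) = ((x 2 : Ω) * (x 3 : Ω)) ^ 2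
    rw [hx, hx, hx, hx, hX]
    simp only [Matrix.cons_val_zero, Matrix.cons_val_one, Matrix.cons_val]
    rw [mul_div_cancel₀ _ (hz0 0)]
  · have h1 := gen_sub S (X := Sum.elim x y) (by
      intro w hw
      rw [hS] at hw
      rcases hw with ⟨i, rfl⟩ | ⟨i, rfl⟩
      · exact ⟨Sum.inl i, hx i⟩
      · exact ⟨Sum.inr i, hy i⟩)
    rwa [Set.Sum.elim_range] at h1
  · have h1 : IsTranscendenceBasis ℂ ![x 0, x 2, x 3] := by
      refine IsTranscendenceBasis.of_comp (adjoin ℂ S).val Subtype.val_injective ?_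
      have h2 : (adjoin ℂ S).val ∘ ![x 0, x 2, x 3] = z := by
        funext i
        fin_cases i
        · change (x 0 : Ω) = z 0
          rw [hx, hX]
          rfl
        · change (x 2 : Ω) = z 1
          rw [hx, hX]
          rfl
        · change (x 3 : Ω) = z 2
          rw [hx, hX]
          rfl
      rw [h2]
      exact hz
    have h2 := h1.cardinalMk_eq_trdeg
    rw [← h2]
    simp
  · intro i hi
    apply hXt i
    rw [← hx i]
    exact hi.algebraMap (A := Ω)

end Pool.Agent.K6.H10.AB
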