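import Pool.Agent.K6.H10.AB.Frame

/-!
The regular `1`-forms of the threefold.
-/

set_option autoImplicit false
set_option linter.overlappingInstances false
set_option linter.unusedSectionVars false
set_option maxHeartbeats 4000000
set_option synthInstance.maxHeartbeats 400000

open FF IntermediateField

namespace Pool.Agent.K6.H10.AB

open Pool.Agent.W603.LV Pool.Agent.Helper11K9.PC
open Pool.Agent.W602.GT (Divisorial RegAt IsPluri DerReg)
open Pool.Agent.Helper11K9.EC (dif Reg1 cf cf_reg cf_apply RegForm)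

section

variable {K : Type} [Field K] [Algebra ℂ K] {x y : Fin 4 → K} {L : IntermediateField ℂ K}
  {E : Fin 3 → Derivation ℂ K K}

/-- the direction of the tangent spaces of the hypersurface -/
noncomputable def vv (x y : Fin 4 → K) : Fin 3 → K :=
  ![-(y 0 / x 0), 2 * (y 2 / x 2), 2 * (y 3 / x 3)]

theorem der_quot {D : Derivation ℂ K K} {a b : K} (ha : Transcendental ℂ a)
    (hab : b ^ 2 = a ^ 3 + 1) (hD : D a = b) : D (b / a) = (a ^ 3 / 2 - 1) / a ^ 2 := by
  have hK0 : CharZero K := charZero_of_injective_algebraMap (algebraMap ℂ K).injective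
  obtain ⟨ha0, hb0⟩ := ell_ne ha hab
  rw [Derivation.leibniz_div, der_y ha hab, hD]
  simp only [smul_eq_mul]
  field_simp
  linear_combination (-2 : K) * hab

theorem quot_ne {a : K} (ha : Transcendental ℂ a) : (a ^ 3 / 2 - 1) / a ^ 2 ≠ 0 := by
  have hK0 : CharZero K := charZero_of_injective_algebraMap (algebraMap ℂ K).injective
  have ha0 : a ≠ 0 := by
    rintro rfl
    exact ha isAlgebraic_zero
  refine div_ne_zero ?_ (pow_ne_zero 2 ha0)
  intro h
  apply ha
  refine ⟨Polynomial.X ^ 3 - Polynomial.C 2, ?_, ?_⟩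
  · intro h1
    have := congrArg (fun p => Polynomial.eval 0 p) h1
    simp at this
  · rw [map_sub, map_pow, Polynomial.aeval_X, Polynomial.aeval_C, map_ofNat]
    linear_combination 2 * h

theorem der_zero_y {D : Derivation ℂ K K} {a b : K} (ha : Transcendental ℂ a)
    (hab : b ^ 2 = a ^ 3 + 1) (hD : D a = 0) : D (b / a) = 0 := by
  rw [Derivation.leibniz_div, der_y ha hab, hD]
  simp

theorem Frame.dvv (h : Dat x y) (fr : Frame x y L E) (i j : Fin 3) :
    (i = j → E i (vv x y j) ≠ 0) ∧ (i ≠ j → E i (vv x y j) = 0) := by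
  have hK0 : CharZero K := charZero_of_injective_algebraMap (algebraMap ℂ K).injective
  have hc : ∀ (c : ℤ) (z : K), E i (c * z) = c * E i z := by
    intro c z
    rw [Derivation.leibniz]
    have : E i (c : K) = 0 := by
      have h2 := (E i).map_algebraMap (c : ℂ)
      rwa [map_intCast] at h2
    rw [this, smul_zero, add_zero, smul_eq_mul]
  have key : ∃ c : ℤ, c ≠ 0 ∧ vv x y j = c * (y (sg j) / x (sg j)) := by
    fin_cases j
    · exact ⟨-1, by norm_num, by simp [vv, sg]⟩
    · exact ⟨2, by norm_num, by simp [vv, sg]⟩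
    · exact ⟨2, by norm_num, by simp [vv, sg]⟩
  obtain ⟨c, hc0, hcv⟩ := key
  rw [hcv, hc]
  have h1 := fr.val i j
  refine ⟨fun hij => ?_, fun hij => ?_⟩
  · rw [if_pos hij] at h1
    rw [der_quot (h.tr _) (h.eq _) h1]
    exact mul_ne_zero (by exact_mod_cast hc0) (quot_ne (h.tr _))
  · rw [if_neg hij] at h1
    rw [der_zero_y (h.tr _) (h.eq _) h1, mul_zero]

/-- the coefficients are linearly independent over the constants -/
theorem Frame.vv_li (h : Dat x y) (fr : Frame x y L E) {c : Fin 3 → ℂ}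
    (hc : ∑ j, algebraMap ℂ K (c j) * vv x y j = 0) : c = 0 := by
  funext i
  have h1 := congrArg (E i) hc
  rw [map_zero, map_sum, Finset.sum_eq_single i] at h1
  · rw [Derivation.leibniz, (E i).map_algebraMap, smul_zero, add_zero, smul_eq_mul] at h1
    have h2 := (mul_eq_zero.1 h1).resolve_right ((fr.dvv h i i).1 rfl)
    exact (_root_.map_eq_zero _).1 h2
  · intro j _ hj
    rw [Derivation.leibniz, (E i).map_algebraMap, smul_zero, add_zero, smul_eq_mul,
      (fr.dvv h i j).2 (Ne.symm hj), mul_zero]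
  · intro hi
    exact absurd (Finset.mem_univ i) hi

theorem Frame.vv_mem (fr : Frame x y L E) (i : Fin 3) : vv x y i ∈ L := by
  have h0 := div_mem (fr.memy 0) (fr.memx 0)
  have h1 := div_mem (fr.memy 1) (fr.memx 1)
  have h2 := div_mem (fr.memy 2) (fr.memx 2)
  have h22 : (2 : K) ∈ L := ofNat_mem L 2
  fin_cases i
  · exact neg_mem h0
  · exact mul_mem h22 h1
  · exact mul_mem h22 h2

theorem Frame.x1_mem (h : Dat x y) (fr : Frame x y L E) : x 1 ∈ L := by
  have h1 : x 1 = (x (sg 1) * x (sg 2)) ^ 2 / x (sg 0) := by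
    rw [eq_div_iff (ell_ne (h.tr _) (h.eq _)).1, mul_comm]
    exact h.rel
  rw [h1]
  exact div_mem (pow_mem (mul_mem (fr.memx 1) (fr.memx 2)) 2) (fr.memx 0)

theorem Dat.dx1 (h : Dat x y) (D : Derivation ℂ K K) : x 0 * D (x 1) =
    2 * (x 2 * x 3) * (x 2 * D (x 3) + x 3 * D (x 2)) - x 1 * D (x 0) := by
  have h1 := congrArg D h.rel
  rw [Derivation.leibniz, Derivation.leibniz_pow, Derivation.leibniz] at h1
  simp only [smul_eq_mul, nsmul_eq_mul] at h1
  push_cast at h1
  linear_combination h1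

theorem Frame.dx1 (h : Dat x y) (fr : Frame x y L E) (i : Fin 3) :
    E i (x 1) = x 1 * vv x y i := by
  have hK0 : CharZero K := charZero_of_injective_algebraMap (algebraMap ℂ K).injective
  have hx0 : ∀ i, x i ≠ 0 := fun i => (ell_ne (h.tr i) (h.eq i)).1
  have p0 := hx0 0
  have p2 := hx0 2
  have p3 := hx0 3
  apply mul_left_cancel₀ (hx0 0)
  rw [h.dx1]
  fin_cases i
  · have e0 : E 0 (x 0) = y 0 := (fr.val 0 0).trans (if_pos rfl)
    have e1 : E 0 (x 2) = 0 := (fr.val 0 1).trans (if_neg (by decide))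
    have e2 : E 0 (x 3) = 0 := (fr.val 0 2).trans (if_neg (by decide))
    change 2 * (x 2 * x 3) * (x 2 * E 0 (x 3) + x 3 * E 0 (x 2)) - x 1 * E 0 (x 0) =
      x 0 * (x 1 * (-(y 0 / x 0)))
    rw [e0, e1, e2]
    field_simp
    ring
  · have e0 : E 1 (x 0) = 0 := (fr.val 1 0).trans (if_neg (by decide))
    have e1 : E 1 (x 2) = y 2 := (fr.val 1 1).trans (if_pos rfl)
    have e2 : E 1 (x 3) = 0 := (fr.val 1 2).trans (if_neg (by decide))
    change 2 * (x 2 * x 3) * (x 2 * E 1 (x 3) + x 3 * E 1 (x 2)) - x 1 * E 1 (x 0) =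
      x 0 * (x 1 * (2 * (y 2 / x 2)))
    have hr2 : x 0 * (x 1 * (2 * (y 2 / x 2))) = (x 0 * x 1) * (2 * (y 2 / x 2)) := by ring
    rw [hr2, h.rel, e0, e1, e2]
    field_simp
    ring
  · have e0 : E 2 (x 0) = 0 := (fr.val 2 0).trans (if_neg (by decide))
    have e1 : E 2 (x 2) = 0 := (fr.val 2 1).trans (if_neg (by decide))
    have e2 : E 2 (x 3) = y 3 := (fr.val 2 2).trans (if_pos rfl)
    change 2 * (x 2 * x 3) * (x 2 * E 2 (x 3) + x 3 * E 2 (x 2)) - x 1 * E 2 (x 0) =
      x 0 * (x 1 * (2 * (y 3 / x 3)))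
    have hr2 : x 0 * (x 1 * (2 * (y 3 / x 3))) = (x 0 * x 1) * (2 * (y 3 / x 3)) := by ring
    rw [hr2, h.rel, e0, e1, e2]
    field_simp
    ring

/-- the values of the fourth form -/
theorem Frame.th1 (h : Dat x y) (fr : Frame x y L E) (i : Fin 3) :
    thet (x 1) (y 1) (E i) = x 1 / y 1 * vv x y i := by
  rw [thet_apply, fr.dx1 h]
  ring

theorem Frame.thE (h : Dat x y) (fr : Frame x y L E) (i j : Fin 3) :
    Th x y j (E i) = if i = j then 1 else 0 := by
  unfold Th
  rw [thet_apply, fr.val]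
  by_cases hij : i = j
  · rw [if_pos hij, if_pos hij, inv_mul_cancel₀ (ell_ne (h.tr _) (h.eq _)).2]
  · rw [if_neg hij, if_neg hij, mul_zero]

theorem Dat.thet_reg (h : Dat x y) (i : Fin 4) (Q : Place ℂ K) : Reg1 Q (thet (x i) (y i)) :=
  AB.thet_reg (h.tr i) (h.eq i) Q

/-- values of determinants of forms on the frame -/
theorem det_upd (h : Dat x y) (fr : Frame x y L E) (η : Derivation ℂ K K →ₗ[K] K) (i : Fin 3) :
    detForm (Function.update (Th x y) i η) E = η (E i) := by
  unfold detForm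
  have hE := fr.thE h
  rw [Matrix.det_fin_three]
  fin_cases i <;> simp [Matrix.of_apply, Function.update, hE]

/-- the other curve is not dominated by the product -/
theorem Frame.y1_not_mem (h : Dat x y) (fr : Frame x y L E) : y 1 ∉ L := by
  have hK0 : CharZero K := charZero_of_injective_algebraMap (algebraMap ℂ K).injective
  have hfin := fr.fin
  have hx0 : ∀ i, x i ≠ 0 := fun i => (ell_ne (h.tr i) (h.eq i)).1
  have hy0 : ∀ i, y i ≠ 0 := fun i => (ell_ne (h.tr i) (h.eq i)).2
  intro hy1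
  have key : ∀ i, ∃ c : ℂ, x 1 / y 1 * vv x y i = algebraMap ℂ K c := by
    intro i
    obtain ⟨c, hc⟩ := fr.tr (detForm (Function.update (Th x y) i (thet (x 1) (y 1))))
      (detForm_pluri _) (fun Q _ => detForm_reg fun j => by
        by_cases hj : j = i
        · rw [hj, Function.update_self]
          exact h.thet_reg 1 Q
        · rw [Function.update_of_ne hj]
          exact h.thet_reg _ Q)
    rw [det_upd h fr, fr.th1 h] at hc
    obtain ⟨z, hz⟩ : ∃ z : L, (z : K) = x 1 / y 1 * vv x y i :=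
      ⟨⟨_, mul_mem (div_mem (fr.x1_mem h) hy1) (fr.vv_mem i)⟩, rfl⟩
    rw [← hz] at hc ⊢
    have h1 : (z : K) = algebraMap L K z := rfl
    rw [h1, Algebra.trace_algebraMap] at hc
    have hd : 0 < Module.finrank L K := Module.finrank_pos
    refine ⟨c / Module.finrank L K, ?_⟩
    have hL0 : CharZero L := charZero_of_injective_algebraMap (algebraMap ℂ L).injective
    have h2 : z = algebraMap ℂ L (c / Module.finrank L K) := by
      rw [map_div₀, ← hc, map_natCast, nsmul_eq_mul, mul_comm, mul_div_assoc, div_self, mul_one]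
      exact_mod_cast hd.ne'
    rw [h1, h2, ← IsScalarTower.algebraMap_apply]
  obtain ⟨c0, hc0⟩ := key 0
  obtain ⟨c1, hc1⟩ := key 1
  have h2 : (![c1, -c0, 0] : Fin 3 → ℂ) = 0 := by
    apply fr.vv_li h
    rw [Fin.sum_univ_three]
    simp only [Matrix.cons_val_zero, Matrix.cons_val_one, Matrix.cons_val, map_zero, zero_mul,
      add_zero, map_neg]
    rw [← hc0, ← hc1]
    ring
  have h3 := congrFun h2 0
  simp only [Matrix.cons_val_zero, Pi.zero_apply] at h3
  rw [h3, map_zero] at hc1
  have h4 := (mul_eq_zero.1 hc1).resolve_left (div_ne_zero (hx0 1) (hy0 1))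
  have h5 := (fr.dvv h 1 1).1 rfl
  rw [h4, map_zero] at h5
  exact h5 rfl

/-- traces in terms of the decomposition -/
theorem Frame.trace_dec (h : Dat x y) (fr : Frame x y L E) :
    ∃ d : ℕ, d ≠ 0 ∧ ∀ α β : L, Algebra.trace L K ((α : K) + β * y 1) = d * α := by
  classical
  have hK0 : CharZero K := charZero_of_injective_algebraMap (algebraMap ℂ K).injective
  have hfin := fr.fin
  have hy1 := fr.y1_not_mem h
  have hli : LinearIndependent L ![(1 : K), y 1] := by
    rw [LinearIndependent.pair_iff]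
    intro s t hst
    rw [Algebra.smul_def, Algebra.smul_def, mul_one] at hst
    have ht : t = 0 := by
      by_contra ht
      apply hy1
      have h1 : y 1 = ((-s / t : L) : K) := by
        have ht' : (t : K) ≠ 0 := fun h => ht (Subtype.ext h)
        push_cast
        rw [eq_div_iff ht']
        have : (s : K) + t * y 1 = 0 := hst
        linear_combination this
      rw [h1]
      exact Subtype.coe_prop _
    rw [ht, map_zero, zero_mul, add_zero] at hst
    exact ⟨(_root_.map_eq_zero _).1 hst, ht⟩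
  have hsp : ⊤ ≤ Submodule.span L (Set.range ![(1 : K), y 1]) := by
    intro z _
    obtain ⟨α, β, rfl⟩ := fr.dec z
    have h1 : (1 : K) ∈ Submodule.span L (Set.range ![(1 : K), y 1]) :=
      Submodule.subset_span ⟨0, rfl⟩
    have h2 : y 1 ∈ Submodule.span L (Set.range ![(1 : K), y 1]) :=
      Submodule.subset_span ⟨1, rfl⟩
    have h3 := Submodule.add_mem _ (Submodule.smul_mem _ α h1) (Submodule.smul_mem _ β h2)
    rw [Algebra.smul_def, Algebra.smul_def, mul_one] at h3
    exact h3
  let b := Module.Basis.mk hli hsp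
  have hb0 : b 0 = 1 := by simp [b]
  have hb1 : b 1 = y 1 := by simp [b]
  obtain ⟨s, hs⟩ : ∃ s : L, (s : K) = y 1 ^ 2 := ⟨⟨x 1, fr.x1_mem h⟩ ^ 3 + 1, by
    rw [h.eq 1]
    push_cast
    rfl⟩
  have htr : Algebra.trace L K (y 1) = 0 := by
    rw [Algebra.trace_eq_matrix_trace b, Matrix.trace_fin_two, Algebra.leftMulMatrix_eq_repr_mul,
      Algebra.leftMulMatrix_eq_repr_mul, hb0, hb1, mul_one]
    have h1 : b.repr (y 1) 0 = 0 := by
      rw [← hb1, b.repr_self, Finsupp.single_apply, if_neg (by decide)]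
    have h2 : b.repr (y 1 * y 1) 1 = 0 := by
      have h3 : y 1 * y 1 = s • b 0 := by
        rw [hb0, Algebra.smul_def, mul_one, ← pow_two]
        exact hs.symm
      rw [h3, map_smul, b.repr_self, Finsupp.smul_apply, Finsupp.single_apply,
        if_neg (by decide), smul_zero]
    rw [h1, h2, add_zero]
  refine ⟨Module.finrank L K, Module.finrank_pos.ne', fun α β => ?_⟩
  have h1 : (α : K) + β * y 1 = algebraMap L K α + β • y 1 := by
    rw [Algebra.smul_def]
    rfl
  rw [h1, map_add, map_smul, htr, smul_zero, add_zero, Algebra.trace_algebraMap, nsmul_eq_mul]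

end

end Pool.Agent.K6.H10.AB
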