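import Pool.Agent.W602.GT.Defs

/-!
The spaces of the holomorphic forms on the smooth projective varieties with a given function field.
-/

set_option autoImplicit false

open FF

namespace Pool.Agent.K6.H10.AB

open Pool.Agent.W602.GT (Divisorial DerReg RegAt)

/-- The space of the rational vector fields on the varieties with function field `K`. -/
abbrev VF (K : Type) [Field K] [Algebra ℂ K] : Type := Derivation ℂ K K

section

variable {K : Type} [Field K] [Algebra ℂ K]

/-- `f` is a rational form of degree `i`: a `K`-multilinear alternating function of `i` rational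
vector fields (derivations of `K`). -/
def IsForm (i : ℕ) (f : (Fin i → VF K) → K) : Prop :=
  ∃ ω : VF K [⋀^Fin i]→ₗ[K] K, ∀ D, ω D = f D

/-- `f` is a holomorphic form of degree `i` on the smooth projective varieties with function field
`K`, of dimension `n`: a rational form which is regular at all prime divisors `P` of all models,
i.e. its values on vector fields that preserve the local ring of `P` are in this local ring. -/
def IsHol (n i : ℕ) (f : (Fin i → VF K) → K) : Prop :=
  IsForm i f ∧ ∀ P : Place ℂ K, Divisorial n P → RegAt P f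

theorem IsHol.add {n i : ℕ} {f g : (Fin i → VF K) → K} (hf : IsHol n i f)
    (hg : IsHol n i g) : IsHol n i (f + g) := by
  obtain ⟨⟨a, ha⟩, hf2⟩ := hf
  obtain ⟨⟨b, hb⟩, hg2⟩ := hg
  refine ⟨⟨a + b, fun D => ?_⟩, fun P hP D hD => ?_⟩
  · rw [AlternatingMap.add_apply, ha, hb]
    rfl
  · exact P.reg_add (hf2 P hP D hD) (hg2 P hP D hD)

theorem IsHol.zero (n i : ℕ) : IsHol n i (0 : (Fin i → VF K) → K) :=
  ⟨⟨0, fun _ => rfl⟩, fun P _ _ _ => P.reg_zero⟩

theorem IsHol.smul {n i : ℕ} (c : ℂ) {f : (Fin i → VF K) → K} (hf : IsHol n i f) :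
    IsHol n i (c • f) := by
  obtain ⟨⟨a, ha⟩, hf2⟩ := hf
  refine ⟨⟨c • a, fun D => ?_⟩, fun P hP D hD => ?_⟩
  · rw [AlternatingMap.smul_apply, ha]
    rfl
  · rw [Pi.smul_apply, Algebra.smul_def]
    exact P.reg_mul (P.reg_const c) (hf2 P hP D hD)

end

/-- The space `H⁰(X, Ω^i)` of the holomorphic `i`-forms, `n = dim X`. -/
def holForms (K : Type) [Field K] [Algebra ℂ K] (n i : ℕ) :
    Submodule ℂ ((Fin i → VF K) → K) where
  carrier := {f | IsHol n i f}
  add_mem' := IsHol.add
  zero_mem' := IsHol.zero n i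
  smul_mem' := IsHol.smul

/-- The Hodge number `h^{i,0} = dim H⁰(X, Ω^i)`, `n = dim X`. -/
noncomputable def hodge (K : Type) [Field K] [Algebra ℂ K] (n i : ℕ) : ℕ :=
  Module.finrank ℂ (holForms K n i)

/-- The spaces of the holomorphic forms have finite dimension. -/
def FiniteForms (K : Type) [Field K] [Algebra ℂ K] (n : ℕ) : Prop :=
  ∀ i, Module.Finite ℂ (holForms K n i)

/-- The irregularity `q(X) = h¹(X, 𝒪_X) = h^{1,0}`. -/
noncomputable def irregularity (K : Type) [Field K] [Algebra ℂ K] (n : ℕ) : ℕ := hodge K n 1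

/-- The geometric genus `p_g(X) = h⁰(X, K_X) = h^{n,0}`. -/
noncomputable def geometricGenus (K : Type) [Field K] [Algebra ℂ K] (n : ℕ) : ℕ := hodge K n n

/-- The Euler characteristic `χ(K_X) = ∑ (-1)^i h^i(X, K_X)`. Here `h^i(X, K_X) = h^{n-i,0}` by the
dualities of Serre and Hodge. -/
noncomputable def chiCanonical (K : Type) [Field K] [Algebra ℂ K] (n : ℕ) : ℤ :=
  ∑ i ∈ Finset.range (n + 1), (-1) ^ i * (hodge K n (n - i) : ℤ)

end Pool.Agent.K6.H10.AB
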