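import Pool.Agent.W603.LV.Ram
import Pool.Agent.W603.LV.Hgt
import Pool.Agent.Helper386.D5V.Helper386_FF_Riemann

/-!
The invariant differential of the elliptic curve `y² = x³ + 1`.
-/

set_option autoImplicit false
set_option linter.overlappingInstances false
set_option linter.unusedSectionVars false

open FF

namespace Pool.Agent.K6.H10.AB

open Pool.Agent.W603.LV

section

variable {k F : Type} [Field k] [Field F] [Algebra k F] [CharZero k] [IsFF k F] [IsAlgClosed k]

/-- functions without poles are constant -/
theorem const_of_reg {f : F} (h : ∀ P : Place k F, P.Reg f) : ∃ c : k, f = algebraMap k F c := by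
  by_cases hf : IsAlgebraic k f
  · obtain ⟨c, hc⟩ := minpoly.mem_range_of_degree_eq_one k f
      (IsAlgClosed.degree_eq_one_of_irreducible k (minpoly.irreducible hf.isIntegral))
    exact ⟨c, hc.symm⟩
  · exfalso
    have h1 := ddeg_polar_pos (k := k) hf
    have h2 : polar (k := k) f = 0 := by
      ext P
      rw [polar_apply]
      have := h P
      rcases this with h0 | h0
      · exfalso; apply hf; rw [h0]; exact isAlgebraic_zero
      · simp only [Finsupp.coe_zero, Pi.zero_apply]; omega
    rw [h2, ddeg_zero] at h1
    exact lt_irrefl _ h1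

theorem der_adjoin {D : Derivation k F F} {S : Set F}
    (hS : ∀ s ∈ S, D s ∈ Algebra.adjoin k S) {r : F} (hr : r ∈ Algebra.adjoin k S) :
    D r ∈ Algebra.adjoin k S := by
  induction hr using Algebra.adjoin_induction with
  | mem s hs => exact hS s hs
  | algebraMap c =>
    rw [D.map_algebraMap]
    exact Subalgebra.zero_mem _
  | add a b _ _ ha hb =>
    rw [map_add]
    exact Subalgebra.add_mem _ ha hb
  | mul a b ha hb ha' hb' =>
    rw [D.leibniz]
    exact Subalgebra.add_mem _ (Subalgebra.mul_mem _ ha hb') (Subalgebra.mul_mem _ hb ha')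

theorem reg_adjoin {P : Place k F} {S : Set F} (hS : ∀ s ∈ S, P.Reg s) {r : F}
    (hr : r ∈ Algebra.adjoin k S) : P.Reg r := by
  induction hr using Algebra.adjoin_induction with
  | mem s hs => exact hS s hs
  | algebraMap c => exact P.reg_const c
  | add a b _ _ ha hb => exact P.reg_add ha hb
  | mul a b _ _ ha hb => exact P.reg_mul ha hb

/-- A derivation which preserves a ring of regular functions with the given field of fractions has
no zero at the place if the derivative of some local parameter is a unit. -/
theorem vo_zero {D : Derivation k F F} (hD : D ≠ 0) (P : Place k F) {S : Set F}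
    (hreg : ∀ s ∈ S, P.Reg s) (hDS : ∀ s ∈ S, D s ∈ Algebra.adjoin k S)
    (hgen : IntermediateField.adjoin k S = ⊤) {u : F} (hu : 0 < P.ord u)
    (hDu : P.ord (D u) = 0) : vo P D = 0 := by
  obtain ⟨e, he⟩ : ∃ e : ℤ, e = P.ord u := ⟨_, rfl⟩
  have hv : vo P D = 1 - e := by
    have h1 := (ord_der P hD (f := u) (by omega)).2
    omega
  have key : ∀ (m : ℕ) (r : F), r ∈ Algebra.adjoin k S → r ≠ 0 → P.ord r = m → e ∣ P.ord r := by
    intro m
    induction m using Nat.strong_induction_on with
    | _ m ih =>
    intro r hr hr0 hrm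
    by_cases hm : m = 0
    · rw [hrm, hm]
      simp
    · obtain ⟨h4, h5⟩ := ord_der P hD (f := r) (by omega)
      have h6 := der_adjoin hDS hr
      have h7 := (reg_adjoin hreg h6).resolve_left h4
      have h8 := ih (P.ord (D r)).toNat (by omega) (D r) h6 h4 (by omega)
      have h9 : P.ord r = P.ord (D r) + e := by omega
      rw [h9]
      exact dvd_add h8 (dvd_refl e)
  obtain ⟨s, hs0, hs⟩ := P.surj
  have hsm : s ∈ IntermediateField.adjoin k S := by
    rw [hgen]
    trivial
  obtain ⟨a, ha, b, hb, hab⟩ := IntermediateField.mem_adjoin_iff_div.1 hsm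
  have ha0 : a ≠ 0 := by
    rintro rfl
    rw [zero_div] at hab
    exact hs0 hab
  have hb0 : b ≠ 0 := by
    rintro rfl
    rw [div_zero] at hab
    exact hs0 hab
  have h4 := (reg_adjoin hreg ha).resolve_left ha0
  have h5 := (reg_adjoin hreg hb).resolve_left hb0
  have h6 := key (P.ord a).toNat a ha ha0 (by omega)
  have h7 := key (P.ord b).toNat b hb hb0 (by omega)
  have h8 : e ∣ 1 := by
    rw [← hs, hab, P.ord_div ha0 hb0]
    exact dvd_sub h6 h7
  have h9 := Int.le_of_dvd one_pos h8
  omega

/-- **The invariant differential has no zeros and poles.** -/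
theorem vo_ell {D : Derivation k F F} {x y : F} (hx : Transcendental k x)
    (hxy : y ^ 2 = x ^ 3 + 1) (hgen : IntermediateField.adjoin k {x, y} = ⊤) (hDx : D x = y)
    (P : Place k F) : vo P D = 0 := by
  have hK0 : CharZero F := charZero_of_injective_algebraMap (algebraMap k F).injective
  have hx0 : x ≠ 0 := by
    rintro rfl
    exact hx isAlgebraic_zero
  have hy0 : y ≠ 0 := by
    rintro rfl
    apply hx
    refine ⟨Polynomial.X ^ 3 + Polynomial.C 1, ?_, ?_⟩
    · intro h
      have := congrArg (fun p => Polynomial.eval 0 p) h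
      simp at this
    · have : x ^ 3 + 1 = 0 := by rw [← hxy]; ring
      simpa using this
  have hD : D ≠ 0 := by
    rintro rfl
    exact hy0 hDx.symm
  have hDy : D y = 3 / 2 * x ^ 2 := by
    have h1 := congrArg D hxy
    rw [D.leibniz_pow, map_add, D.leibniz_pow, D.map_one_eq_zero, hDx] at h1
    simp only [smul_eq_mul, nsmul_eq_mul] at h1
    have h2 : 2 * y * D y = 2 * y * (3 / 2 * x ^ 2) := by
      push_cast at h1
      linear_combination h1
    exact mul_left_cancel₀ (mul_ne_zero two_ne_zero hy0) h2
  have hq : ∀ (q : ℚ), P.Reg ((q : ℚ) : F) := by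
    intro q
    have := P.reg_const ((q : ℚ) : k)
    rwa [map_ratCast] at this
  by_cases hxP : 0 ≤ P.ord x
  · -- finite places
    have hyP : 0 ≤ P.ord y := by
      have h1 : P.Reg (y ^ 2) := by
        rw [hxy]
        refine P.reg_add ?_ P.reg_one
        right
        rw [P.ord_pow]
        positivity
      have h2 := h1.resolve_left (pow_ne_zero 2 hy0)
      rw [P.ord_pow] at h2
      push_cast at h2
      omega
    have hregS : ∀ s ∈ ({x, y} : Set F), P.Reg s := by
      rintro s (rfl | rfl)
      · exact Or.inr hxP
      · exact Or.inr hyP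
    have hxm : x ∈ Algebra.adjoin k ({x, y} : Set F) := Algebra.subset_adjoin (by simp)
    have hym : y ∈ Algebra.adjoin k ({x, y} : Set F) := Algebra.subset_adjoin (by simp)
    have hqm : ∀ q : ℚ, (q : F) ∈ Algebra.adjoin k ({x, y} : Set F) := by
      intro q
      have := (Algebra.adjoin k ({x, y} : Set F)).algebraMap_mem (q : k)
      rwa [map_ratCast] at this
    have hDS : ∀ s ∈ ({x, y} : Set F), D s ∈ Algebra.adjoin k ({x, y} : Set F) := by
      rintro s (rfl | rfl)
      · rw [hDx]
        exact hym
      · rw [hDy]
        refine Subalgebra.mul_mem _ ?_ (Subalgebra.pow_mem _ hxm 2)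
        have := hqm (3 / 2)
        push_cast at this
        exact this
    obtain ⟨a, ha⟩ := exists_const (P := P) (f := x) (Or.inr hxP)
    have hxa0 : x - algebraMap k F a ≠ 0 := by
      intro h
      apply hx
      rw [sub_eq_zero.1 h]
      exact isAlgebraic_algebraMap a
    have hxa : 0 < P.ord (x - algebraMap k F a) := by
      have := ha.resolve_left hxa0
      omega
    by_cases hyu : P.ord y = 0
    · refine vo_zero hD P hregS hDS hgen hxa ?_
      rw [map_sub, D.map_algebraMap, sub_zero, hDx, hyu]
    · refine vo_zero hD P hregS hDS hgen (u := y) (by omega) ?_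
      rw [hDy]
      have h1 : P.ord x = 0 := by
        by_contra hne
        -- then `1 = y² - x³` vanishes at the place
        have h2 : P.ord (x ^ 3) = 3 * P.ord x := by
          rw [P.ord_pow]
          push_cast
          ring
        have h3 : P.ord (y ^ 2) = 2 * P.ord y := by
          rw [P.ord_pow]
          push_cast
          ring
        have h4 : Ge P 1 (1 : F) := by
          have h5 : (1 : F) = y ^ 2 + -(x ^ 3) := by rw [hxy]; ring
          rw [h5]
          refine Ge.add (Or.inr (by omega)) ?_
          rw [Ge]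
          right
          rw [P.ord_neg]
          omega
        rcases h4 with h4 | h4
        · exact one_ne_zero h4
        · rw [P.ord_one] at h4
          omega
      have h2 : (3 / 2 : F) = algebraMap k F (3 / 2) := by
        rw [map_div₀, map_ofNat, map_ofNat]
      rw [h2, P.ord_mul ((_root_.map_ne_zero _).2 (by norm_num)) (pow_ne_zero 2 hx0),
        P.ord_const (by norm_num), P.ord_pow, h1]
      simp
  · -- the place at infinity
    push Not at hxP
    have hord : 2 * P.ord y = 3 * P.ord x := by
      have h1 : P.ord (x ^ 3 + 1) = P.ord (x ^ 3) := by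
        refine (P.ord_add_eq (pow_ne_zero 3 hx0) one_ne_zero ?_).2
        rw [P.ord_one, P.ord_pow]
        push_cast
        omega
      rw [← hxy, P.ord_pow, P.ord_pow] at h1
      push_cast at h1
      exact h1
    obtain ⟨u, hu⟩ : ∃ u, u = x / y := ⟨_, rfl⟩
    obtain ⟨w, hw⟩ : ∃ w, w = y⁻¹ := ⟨_, rfl⟩
    have hw0 : w ≠ 0 := by rw [hw]; exact inv_ne_zero hy0
    have hou : P.ord u = P.ord x - P.ord y := by rw [hu, P.ord_div hx0 hy0]
    have how : P.ord w = -P.ord y := by rw [hw, P.ord_inv]
    have hDu : D u = -(1 / 2) + 3 / 2 * w ^ 2 := by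
      have h1 : u * y = x := by rw [hu, div_mul_cancel₀ _ hy0]
      have h2 := congrArg D h1
      rw [D.leibniz, hDx, hDy] at h2
      simp only [smul_eq_mul] at h2
      apply mul_right_cancel₀ hy0
      have h3 : u = x * w := by rw [hu, hw, div_eq_mul_inv]
      have h4 : w * y = 1 := by rw [hw]; exact inv_mul_cancel₀ hy0
      have h5 : y * D u = y - u * (3 / 2 * x ^ 2) := by linear_combination h2
      have h6 : x ^ 3 = y ^ 2 - 1 := by rw [hxy]; ring
      rw [mul_comm, h5, h3]
      linear_combination (-(3 / 2) * w) * h6 + (-(3 / 2) * w - 3 / 2 * y) * h4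
    have hDw : D w = -(3 / 2) * u ^ 2 := by
      have h4 : w * y = 1 := by rw [hw]; exact inv_mul_cancel₀ hy0
      have h2 := congrArg D h4
      rw [D.leibniz, hDy, D.map_one_eq_zero] at h2
      simp only [smul_eq_mul] at h2
      have h3 : u = x * w := by rw [hu, hw, div_eq_mul_inv]
      apply mul_right_cancel₀ hy0
      rw [h3]
      linear_combination h2 + (3 / 2 * w * x ^ 2) * h4
    have hregS : ∀ s ∈ ({u, w} : Set F), P.Reg s := by
      rintro s (rfl | rfl)
      · exact Or.inr (by omega)
      · exact Or.inr (by omega)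
    have hum : u ∈ Algebra.adjoin k ({u, w} : Set F) := Algebra.subset_adjoin (by simp)
    have hwm : w ∈ Algebra.adjoin k ({u, w} : Set F) := Algebra.subset_adjoin (by simp)
    have hqm : ∀ q : ℚ, (q : F) ∈ Algebra.adjoin k ({u, w} : Set F) := by
      intro q
      have := (Algebra.adjoin k ({u, w} : Set F)).algebraMap_mem (q : k)
      rwa [map_ratCast] at this
    have hDS : ∀ s ∈ ({u, w} : Set F), D s ∈ Algebra.adjoin k ({u, w} : Set F) := by
      rintro s (rfl | rfl)
      · rw [hDu]
        refine Subalgebra.add_mem _ ?_ (Subalgebra.mul_mem _ ?_ (Subalgebra.pow_mem _ hwm 2))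
        · have := hqm (-(1 / 2))
          push_cast at this
          exact this
        · have := hqm (3 / 2)
          push_cast at this
          exact this
      · rw [hDw]
        refine Subalgebra.mul_mem _ ?_ (Subalgebra.pow_mem _ hum 2)
        have := hqm (-(3 / 2))
        push_cast at this
        exact this
    have hgen' : IntermediateField.adjoin k ({u, w} : Set F) = ⊤ := by
      rw [eq_top_iff, ← hgen, IntermediateField.adjoin_le_iff]
      have hym : y ∈ IntermediateField.adjoin k ({u, w} : Set F) := by
        have h1 : w ∈ IntermediateField.adjoin k ({u, w} : Set F) :=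
          IntermediateField.subset_adjoin _ _ (by simp)
        have h2 := inv_mem h1
        have h3 : w⁻¹ = y := by rw [hw, inv_inv]
        rwa [h3] at h2
      have hxm : x ∈ IntermediateField.adjoin k ({u, w} : Set F) := by
        have h1 : u ∈ IntermediateField.adjoin k ({u, w} : Set F) :=
          IntermediateField.subset_adjoin _ _ (by simp)
        have h2 := mul_mem h1 hym
        have h3 : u * y = x := by rw [hu, div_mul_cancel₀ _ hy0]
        rwa [h3] at h2
      rintro z (rfl | rfl)
      · exact hxm
      · exact hym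
    refine vo_zero hD P hregS hDS hgen' (u := u) (by omega) ?_
    rw [hDu]
    have h1 : (-(1 / 2) : F) = algebraMap k F (-(1 / 2)) := by
      rw [map_neg, map_div₀, map_one, map_ofNat]
    have h2 : (3 / 2 : F) = algebraMap k F (3 / 2) := by
      rw [map_div₀, map_ofNat, map_ofNat]
    have h3 : P.ord (3 / 2 * w ^ 2) = 2 * P.ord w := by
      rw [h2, P.ord_mul ((_root_.map_ne_zero _).2 (by norm_num)) (pow_ne_zero 2 hw0),
        P.ord_const (by norm_num), P.ord_pow]
      push_cast
      ring
    have h4 : P.ord (-(1 / 2) : F) = 0 := by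
      rw [h1]
      exact P.ord_const (by norm_num)
    have h5 : P.ord (-(1 / 2) + 3 / 2 * w ^ 2) = P.ord (-(1 / 2) : F) := by
      refine (P.ord_add_eq ?_ ?_ ?_).2
      · rw [h1]
        exact (_root_.map_ne_zero _).2 (by norm_num)
      · refine mul_ne_zero ?_ (pow_ne_zero 2 hw0)
        rw [h2]
        exact (_root_.map_ne_zero _).2 (by norm_num)
      · rw [h3, h4]
        omega
    rw [h5, h4]

/-- **The regular differentials are the multiples of the invariant one.** -/
theorem reg_ell {D : Derivation k F F} {x y : F} (hx : Transcendental k x)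
    (hxy : y ^ 2 = x ^ 3 + 1) (hgen : IntermediateField.adjoin k {x, y} = ⊤) (hDx : D x = y)
    (l : F) (hl : l = 0 ∨ ∀ P : Place k F, vo P D ≤ P.ord l) :
    l ∈ Submodule.span k (Set.range fun _ : Unit => (1 : F)) := by
  rcases hl with rfl | hl
  · exact Submodule.zero_mem _
  · obtain ⟨c, hc⟩ := const_of_reg (k := k) (f := l) fun P => by
      right
      have := hl P
      rwa [vo_ell hx hxy hgen hDx P] at this
    rw [Set.range_const, Submodule.mem_span_singleton]
    exact ⟨c, by rw [hc, Algebra.smul_def, mul_one]⟩

end

end Pool.Agent.K6.H10.AB
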