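import Pool.Agent.K6.H10.AB.Ell

/-!
The function field of the elliptic curve `y² = x³ + 1` inside a bigger field.
-/

set_option autoImplicit false
set_option linter.overlappingInstances false
set_option linter.unusedSectionVars false

open FF IntermediateField

namespace Pool.Agent.K6.H10.AB

open Pool.Agent.W603.LV

section

variable {K : Type} [Field K] [Algebra ℂ K]

/-- the function field of the curve inside `K` -/
noncomputable def EF (x y : K) : IntermediateField ℂ K := adjoin ℂ {x, y}

noncomputable def ex (x y : K) : EF x y := ⟨x, subset_adjoin _ _ (by simp)⟩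

noncomputable def ey (x y : K) : EF x y := ⟨y, subset_adjoin _ _ (by simp)⟩

@[simp] theorem coe_ex (x y : K) : (ex x y : K) = x := rfl

@[simp] theorem coe_ey (x y : K) : (ey x y : K) = y := rfl

theorem adj_top (x y : K) : adjoin ℂ ({ex x y, ey x y} : Set (EF x y)) = ⊤ := by
  have h1 : (adjoin ℂ ({ex x y, ey x y} : Set (EF x y))).map (EF x y).val =
      (⊤ : IntermediateField ℂ (EF x y)).map (EF x y).val := by
    rw [adjoin_map, ← AlgHom.fieldRange_eq_map, fieldRange_val, Set.image_pair]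
    rfl
  exact map_injective _ h1

theorem ex_tr {x y : K} (hx : Transcendental ℂ x) : Transcendental ℂ (ex x y) := by
  intro h
  apply hx
  exact h.algebraMap (A := K)

theorem e_eq {x y : K} (hxy : y ^ 2 = x ^ 3 + 1) : ey x y ^ 2 = ex x y ^ 3 + 1 :=
  Subtype.ext hxy

theorem ell_ff {x y : K} (hx : Transcendental ℂ x) (hxy : y ^ 2 = x ^ 3 + 1) :
    IsFF ℂ (EF x y) := by
  refine IsFF.of_finite (ex_tr (y := y) hx) ?_
  obtain ⟨N, hN⟩ : ∃ N : IntermediateField ℂ (EF x y), N = ℂ⟮ex x y⟯ := ⟨_, rfl⟩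
  rw [← hN]
  have hxN : ex x y ∈ N := by
    rw [hN]
    exact mem_adjoin_simple_self ℂ _
  have hyi : IsIntegral N (ey x y) := by
    refine ⟨Polynomial.X ^ 2 - Polynomial.C (⟨ex x y, hxN⟩ ^ 3 + 1 : N),
      Polynomial.monic_X_pow_sub_C _ two_ne_zero, ?_⟩
    rw [Polynomial.eval₂_sub, Polynomial.eval₂_pow, Polynomial.eval₂_X, Polynomial.eval₂_C,
      e_eq hxy, map_add, map_pow, map_one]
    exact sub_self _
  have h1 := adjoin.finiteDimensional hyi
  have h2 : N⟮ey x y⟯ = ⊤ := by
    apply restrictScalars_injective ℂ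
    rw [restrictScalars_top, eq_top_iff, ← adj_top x y, adjoin_le_iff]
    rintro z (rfl | rfl)
    · exact (N⟮ey x y⟯).algebraMap_mem (⟨_, hxN⟩ : N)
    · exact mem_adjoin_simple_self N _
  rw [h2] at h1
  exact Module.Finite.equiv (IntermediateField.topEquiv (F := N) (E := EF x y)).toLinearEquiv

theorem ell_ne {x y : K} (hx : Transcendental ℂ x) (hxy : y ^ 2 = x ^ 3 + 1) : x ≠ 0 ∧ y ≠ 0 := by
  refine ⟨?_, ?_⟩
  · rintro rfl
    exact hx isAlgebraic_zero
  · rintro rfl
    apply hx
    refine ⟨Polynomial.X ^ 3 + Polynomial.C 1, ?_, ?_⟩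
    · intro h
      have := congrArg (fun p => Polynomial.eval 0 p) h
      simp at this
    · have : x ^ 3 + 1 = 0 := by rw [← hxy]; ring
      simpa using this

/-- the invariant derivation -/
theorem ell_der {x y : K} (hx : Transcendental ℂ x) (hxy : y ^ 2 = x ^ 3 + 1) :
    ∃ D : Derivation ℂ (EF x y) (EF x y), D ≠ 0 ∧ D (ex x y) = ey x y := by
  have hFF := ell_ff hx hxy
  have hd1 := der_ne_zero (der_ne (k := ℂ) (K := EF x y)) (ex_tr (y := y) hx)
  have h0 : ey x y ≠ 0 := fun h => (ell_ne hx hxy).2 (congrArg Subtype.val h)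
  have h1 : ((ey x y / der ℂ (EF x y) (ex x y)) • der ℂ (EF x y)) (ex x y) = ey x y := by
    rw [Derivation.smul_apply, smul_eq_mul, div_mul_cancel₀ _ hd1]
  refine ⟨_, ?_, h1⟩
  intro h
  rw [h] at h1
  exact h0 h1.symm

/-- the derivative of the other coordinate -/
theorem der_y {D : Derivation ℂ K K} {x y : K} (hx : Transcendental ℂ x)
    (hxy : y ^ 2 = x ^ 3 + 1) : D y = 3 / 2 * x ^ 2 / y * D x := by
  have hK0 : CharZero K := charZero_of_injective_algebraMap (algebraMap ℂ K).injective
  have hy0 := (ell_ne hx hxy).2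
  have h1 := congrArg D hxy
  rw [D.leibniz_pow, map_add, D.leibniz_pow, D.map_one_eq_zero] at h1
  simp only [smul_eq_mul, nsmul_eq_mul] at h1
  have h2 : 2 * y * D y = 2 * y * (3 / 2 * x ^ 2 / y * D x) := by
    push_cast at h1
    field_simp
    linear_combination h1
  exact mul_left_cancel₀ (mul_ne_zero two_ne_zero hy0) h2

end

end Pool.Agent.K6.H10.AB
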