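import Pool.Agent.Helper11K9.EC.Form
import Pool.Agent.K6.H10.AB.EllK

/-!
Determinants of linear forms on vector fields.
-/

set_option autoImplicit false
set_option linter.overlappingInstances false
set_option linter.unusedSectionVars false

open FF IntermediateField

namespace Pool.Agent.K6.H10.AB

open Pool.Agent.W603.LV Pool.Agent.Helper11K9.PC
open Pool.Agent.W602.GT (Divisorial RegAt IsPluri DerReg)
open Pool.Agent.Helper11K9.EC (dif Reg1 cf cf_reg cf_apply)

section

variable {K : Type} [Field K] [Algebra ℂ K]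

/-- the differential `dx / y` -/
noncomputable def thet (x y : K) : Derivation ℂ K K →ₗ[K] K := y⁻¹ • dif x

theorem thet_apply (x y : K) (δ : Derivation ℂ K K) : thet x y δ = y⁻¹ * δ x := rfl

theorem thet_reg {x y : K} (hx : Transcendental ℂ x) (hxy : y ^ 2 = x ^ 3 + 1) (Q : Place ℂ K) :
    Reg1 Q (thet x y) := by
  have hFF := ell_ff hx hxy
  obtain ⟨D, hD, hDx⟩ := ell_der hx hxy
  have h1 := cf_reg (F := EF x y) hD (ex_tr (y := y) hx) (f := 1) ⟨one_ne_zero, fun P => by
    rw [vo_ell (ex_tr hx) (e_eq hxy) (adj_top x y) hDx P, P.ord_one]⟩ Q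
  have h2 : cf D (ex x y) 1 = thet x y := by
    refine LinearMap.ext fun δ => ?_
    rw [cf_apply, thet_apply, hDx, one_div, map_inv₀]
    rfl
  rwa [h2] at h1

/-- the determinant of linear forms -/
noncomputable def detForm {n : ℕ} (η : Fin n → (Derivation ℂ K K →ₗ[K] K))
    (D : Fin n → Derivation ℂ K K) : K :=
  (Matrix.of fun i j => η j (D i) : Matrix (Fin n) (Fin n) K).det

theorem detForm_pluri {n : ℕ} (η : Fin n → (Derivation ℂ K K →ₗ[K] K)) :
    IsPluri 1 (detForm η) := by
  intro A D
  have e1 : (Matrix.of fun a b => η b (∑ j, A a j • D j) : Matrix (Fin n) (Fin n) K) =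
      A * Matrix.of fun a b => η b (D a) := by
    ext a b
    rw [Matrix.of_apply, Matrix.mul_apply, map_sum]
    refine Finset.sum_congr rfl fun j _ => ?_
    rw [map_smul, smul_eq_mul, Matrix.of_apply]
  unfold detForm
  rw [e1, Matrix.det_mul, pow_one]

theorem detForm_reg {n : ℕ} {P : Place ℂ K} {η : Fin n → (Derivation ℂ K K →ₗ[K] K)}
    (h : ∀ j, Reg1 P (η j)) : RegAt P (detForm η) := by
  intro D hD
  have h9 : Ge P 0 (Matrix.of fun i j => η j (D i) : Matrix (Fin n) (Fin n) K).det :=
    Pool.Agent.W603.LV.ge_det P _ _ (fun _ _ => 0) (fun a b => h b _ (hD a)) fun σ => by simp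
  exact h9

end

end Pool.Agent.K6.H10.AB
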