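import Pool.Agent.K6.H10.AB.Prod

/-!
The threefold `x 0 * x 1 = (x 2 * x 3) ^ 2` in the fourth power of the curve `y² = x³ + 1`: the
projection to the product of three of the curves, and traces of canonical forms.
-/

set_option autoImplicit false
set_option linter.overlappingInstances false
set_option linter.unusedSectionVars false
set_option maxHeartbeats 4000000
set_option synthInstance.maxHeartbeats 400000

open FF IntermediateField

namespace Pool.Agent.K6.H10.AB

open Pool.Agent.W603.LV Pool.Agent.Helper11K9.PC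
open Pool.Agent.W602.GT (Divisorial RegAt IsPluri DerReg)
open Pool.Agent.Y172 (exists_lift lift_dual)
open Pool.Agent.Y184.NT (trForm trForm_pluri)

section

variable {K : Type} [Field K] [Algebra ℂ K]

/-- the function field of the threefold -/
structure Dat (x y : Fin 4 → K) : Prop where
  eq : ∀ i, y i ^ 2 = x i ^ 3 + 1
  rel : x 0 * x 1 = (x 2 * x 3) ^ 2
  top : adjoin ℂ (Set.range x ∪ Set.range y) = ⊤
  deg : Algebra.trdeg ℂ K = (3 : ℕ)
  tr : ∀ i, Transcendental ℂ (x i)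

/-- the indices of three of the curves -/
def sg : Fin 3 → Fin 4 := ![0, 2, 3]

/-- the forms `dx / y` on three of the curves -/
noncomputable def Th (x y : Fin 4 → K) (i : Fin 3) : Derivation ℂ K K →ₗ[K] K :=
  thet (x (sg i)) (y (sg i))

/-- The field of the product of three of the curves, and a frame of vector fields. -/
structure Frame (x y : Fin 4 → K) (L : IntermediateField ℂ K) (E : Fin 3 → Derivation ℂ K K) :
    Prop where
  fin : FiniteDimensional L K
  memx : ∀ i, x (sg i) ∈ L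
  memy : ∀ i, y (sg i) ∈ L
  val : ∀ i j, E i (x (sg j)) = if i = j then y (sg j) else 0
  exp : ∀ δ, ∑ i, Th x y i δ • E i = δ
  tr : ∀ W, IsPluri 1 W → (∀ Q, Divisorial 3 Q → RegAt Q W) →
    ∃ c : ℂ, Algebra.trace L K (W E) = algebraMap ℂ L c
  dec : ∀ z : K, ∃ α β : L, z = α + β * y 1

theorem Dat.ess {x y : Fin 4 → K} (h : Dat x y) : Algebra.EssFiniteType ℂ K := by
  have hFF : ∀ i, IsFF ℂ (EF (x i) (y i)) := fun i => ell_ff (h.tr i) (h.eq i)
  refine ess_top (fun i => EF (x i) (y i)) ?_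
  rw [eq_top_iff, ← h.top, adjoin_le_iff]
  rintro z (⟨i, rfl⟩ | ⟨i, rfl⟩)
  · exact (le_iSup (fun i => EF (x i) (y i)) i) (ex (x i) (y i)).2
  · exact (le_iSup (fun i => EF (x i) (y i)) i) (ey (x i) (y i)).2

theorem gen_sub {ι : Type} (S : Set K) {X : ι → adjoin ℂ S}
    (hX : S ⊆ Set.range fun i => (X i : K)) : adjoin ℂ (Set.range X) = ⊤ := by
  have h1 : (adjoin ℂ (Set.range X)).map (adjoin ℂ S).val =
      (⊤ : IntermediateField ℂ (adjoin ℂ S)).map (adjoin ℂ S).val := by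
    apply le_antisymm (map_mono _ le_top)
    rw [← AlgHom.fieldRange_eq_map, fieldRange_val, adjoin_map, ← Set.range_comp]
    exact adjoin.mono _ _ _ hX
  exact map_injective _ h1

theorem exists_frame {x y : Fin 4 → K} (h : Dat x y) :
    ∃ (L : IntermediateField ℂ K) (E : Fin 3 → Derivation ℂ K K), Frame x y L E := by
  classical
  have hK0 : CharZero K := charZero_of_injective_algebraMap (algebraMap ℂ K).injective
  have hessK := h.ess
  have hx0 : ∀ i, x i ≠ 0 := fun i => (ell_ne (h.tr i) (h.eq i)).1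
  have hy0 : ∀ i, y i ≠ 0 := fun i => (ell_ne (h.tr i) (h.eq i)).2
  obtain ⟨S, hS⟩ : ∃ S : Set K, S = Set.range (x ∘ sg) ∪ Set.range (y ∘ sg) := ⟨_, rfl⟩
  obtain ⟨X, hX⟩ : ∃ X : Fin 3 → adjoin ℂ S, ∀ i, (X i : K) = x (sg i) :=
    ⟨fun i => ⟨x (sg i), subset_adjoin _ _ (by rw [hS]; exact Or.inl ⟨i, rfl⟩)⟩, fun _ => rfl⟩
  obtain ⟨Y, hY⟩ : ∃ Y : Fin 3 → adjoin ℂ S, ∀ i, (Y i : K) = y (sg i) :=
    ⟨fun i => ⟨y (sg i), subset_adjoin _ _ (by rw [hS]; exact Or.inr ⟨i, rfl⟩)⟩, fun _ => rfl⟩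
  have htopL : adjoin ℂ (Set.range X ∪ Set.range Y) = ⊤ := by
    have h1 := gen_sub S (X := Sum.elim X Y) (by
      intro z hz
      rw [hS] at hz
      rcases hz with ⟨i, rfl⟩ | ⟨i, rfl⟩
      · exact ⟨Sum.inl i, hX i⟩
      · exact ⟨Sum.inr i, hY i⟩)
    rwa [Set.Sum.elim_range] at h1
  have hxm : ∀ i, x (sg i) ∈ adjoin ℂ S := fun i => by
    rw [← hX]
    exact (X i).2
  have hym : ∀ i, y (sg i) ∈ adjoin ℂ S := fun i => by
    rw [← hY]
    exact (Y i).2
  have hXt : ∀ i, Transcendental ℂ (X i) := by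
    intro i hi
    apply h.tr (sg i)
    rw [← hX i]
    exact hi.algebraMap (A := K)
  have hXY : ∀ i, Y i ^ 2 = X i ^ 3 + 1 := by
    intro i
    apply Subtype.ext
    change (Y i : K) ^ 2 = (X i : K) ^ 3 + 1
    rw [hX, hY]
    exact h.eq _
  -- the other curve
  have hx1 : x 1 ∈ adjoin ℂ S := by
    have h1 : x 1 = (x (sg 1) * x (sg 2)) ^ 2 / x (sg 0) := by
      rw [eq_div_iff (hx0 _), mul_comm]
      exact h.rel
    rw [h1, ← hX, ← hX, ← hX]
    exact div_mem (pow_mem (mul_mem (X 1).2 (X 2).2) 2) (X 0).2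
  have hyi : IsIntegral (adjoin ℂ S) (y 1) := by
    refine ⟨Polynomial.X ^ 2 - Polynomial.C (⟨x 1, hx1⟩ ^ 3 + 1 : adjoin ℂ S),
      Polynomial.monic_X_pow_sub_C _ two_ne_zero, ?_⟩
    rw [Polynomial.eval₂_sub, Polynomial.eval₂_pow, Polynomial.eval₂_X, Polynomial.eval₂_C,
      h.eq 1, map_add, map_pow, map_one]
    exact sub_self _
  have htopK : (adjoin ℂ S)⟮y 1⟯ = ⊤ := by
    apply restrictScalars_injective ℂ
    rw [restrictScalars_top, eq_top_iff, ← h.top, adjoin_le_iff]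
    have hL : ∀ z ∈ adjoin ℂ S, z ∈ (adjoin ℂ S)⟮y 1⟯ := fun z hz =>
      ((adjoin ℂ S)⟮y 1⟯).algebraMap_mem (⟨z, hz⟩ : adjoin ℂ S)
    have hself : y 1 ∈ (adjoin ℂ S)⟮y 1⟯ := mem_adjoin_simple_self _ _
    rintro z (⟨i, rfl⟩ | ⟨i, rfl⟩)
    · fin_cases i
      · exact hL _ (hxm 0)
      · exact hL _ hx1
      · exact hL _ (hxm 1)
      · exact hL _ (hxm 2)
    · fin_cases i
      · exact hL _ (hym 0)
      · exact hself
      · exact hL _ (hym 1)
      · exact hL _ (hym 2)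
  have hfin : FiniteDimensional (adjoin ℂ S) K := by
    have h1 := adjoin.finiteDimensional hyi
    rw [htopK] at h1
    exact Module.Finite.equiv (topEquiv (F := adjoin ℂ S) (E := K)).toLinearEquiv
  have hdec : ∀ z : K, ∃ α β : adjoin ℂ S, z = α + β * y 1 := by
    intro z
    have h1 : z ∈ Algebra.adjoin (adjoin ℂ S) {y 1} := by
      rw [← adjoin_simple_toSubalgebra_of_isAlgebraic hyi.isAlgebraic, htopK]
      trivial
    induction h1 using Algebra.adjoin_induction with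
    | mem s hs =>
      rw [Set.mem_singleton_iff.1 hs]
      exact ⟨0, 1, by simp⟩
    | algebraMap c => exact ⟨c, 0, by simp⟩
    | add a b _ _ ha hb =>
      obtain ⟨α, β, rfl⟩ := ha
      obtain ⟨α', β', rfl⟩ := hb
      exact ⟨α + α', β + β', by push_cast; ring⟩
    | mul a b _ _ ha hb =>
      obtain ⟨α, β, rfl⟩ := ha
      obtain ⟨α', β', rfl⟩ := hb
      refine ⟨α * α' + β * β' * (⟨x 1, hx1⟩ ^ 3 + 1), α * β' + β * α', ?_⟩
      push_cast
      rw [← h.eq 1]
      ring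
  have htrL : Algebra.trdeg ℂ (adjoin ℂ S) = (3 : ℕ) :=
    Pool.Agent.Y184.NT.trdeg_below (K := K) h.deg
  have hFFL : ∀ i, IsFF ℂ (EF (X i) (Y i)) := fun i => ell_ff (hXt i) (hXY i)
  have hsupL : ⨆ i, EF (X i) (Y i) = ⊤ := by
    rw [eq_top_iff, ← htopL, adjoin_le_iff]
    rintro z (⟨i, rfl⟩ | ⟨i, rfl⟩)
    · exact (le_iSup (fun i => EF (X i) (Y i)) i) (ex (X i) (Y i)).2
    · exact (le_iSup (fun i => EF (X i) (Y i)) i) (ey (X i) (Y i)).2
  have hessL : Algebra.EssFiniteType ℂ (adjoin ℂ S) := ess_top _ hsupL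
  have hXb : IsTranscendenceBasis ℂ X :=
    Pool.Agent.W619.PQ.basis_of_iSup (fun i => EF (X i) (Y i)) hsupL htrL
      (fun i => ex (X i) (Y i)) (fun i => ex_tr (hXt i))
  obtain ⟨E0, hE0⟩ := Pool.Agent.W636.PG.exists_duals ℂ (adjoin ℂ S) 3 X hXb
  choose E1 hE1 using fun i => exists_lift (k := ℂ) (K := adjoin ℂ S) (L := K) htrL (E0 i)
  have hXbK : IsTranscendenceBasis ℂ (fun i => algebraMap (adjoin ℂ S) K (X i)) :=
    hXb.algebraMap_comp (A := K)
  have hE1d : ∀ i j, E1 i (algebraMap (adjoin ℂ S) K (X j)) = if i = j then 1 else 0 :=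
    lift_dual hE0 hE1
  have hY0 : ∀ i, (Y i : K) ≠ 0 := fun i => by rw [hY]; exact hy0 _
  refine ⟨adjoin ℂ S, fun i => (Y i : K) • E1 i, hfin, fun i => ?_, fun i => ?_, fun i j => ?_,
    fun δ => ?_, fun W hW hreg => ?_, hdec⟩
  · rw [← hX]
    exact (X i).2
  · rw [← hY]
    exact (Y i).2
  · rw [Derivation.smul_apply, smul_eq_mul, ← hX j]
    have h1 := hE1d i j
    have h2 : algebraMap (adjoin ℂ S) K (X j) = (X j : K) := rfl
    rw [h2] at h1
    rw [h1, ← hY]
    by_cases hij : i = j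
    · rw [if_pos hij, if_pos hij, mul_one, hij]
    · rw [if_neg hij, if_neg hij, mul_zero]
  · have h1 := Pool.Agent.W73.PG.PULL.expand (fun i => algebraMap (adjoin ℂ S) K (X i)) hXbK E1
      hE1d δ
    conv_rhs => rw [← h1]
    refine Finset.sum_congr rfl fun i _ => ?_
    rw [smul_smul]
    congr 1
    unfold Th
    rw [thet_apply, ← hX, ← hY]
    have h2 : algebraMap (adjoin ℂ S) K (X i) = (X i : K) := rfl
    rw [h2, mul_comm, ← mul_assoc, mul_inv_cancel₀ (hY0 i), one_mul]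
  · -- traces
    obtain ⟨T, hT⟩ : ∃ T : (Fin 3 → Derivation ℂ (adjoin ℂ S) (adjoin ℂ S)) → adjoin ℂ S,
      T = trForm X (Algebra.trace (adjoin ℂ S) K (W E1)) := ⟨_, rfl⟩
    have hTp : IsPluri 1 T := by
      rw [hT]
      exact trForm_pluri _ _
    have hTr : ∀ P : Place ℂ (adjoin ℂ S), Divisorial 3 P → RegAt P T := by
      intro P hP
      rw [hT]
      exact Pool.Agent.R882.LT.trForm_regAt htrL hXb hE0 hE1 W hW P hP
        fun Q e hQ => hreg Q (Pool.Agent.Y172.divisorial_up hQ hP)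
    obtain ⟨c, hc⟩ := prodA hXY hXt htopL htrL hTp hTr (E := fun i => Y i • E0 i) (by
      intro i j
      rw [Derivation.smul_apply, smul_eq_mul, hE0]
      by_cases hij : i = j
      · rw [if_pos hij, if_pos hij, mul_one, hij]
      · rw [if_neg hij, if_neg hij, mul_zero])
    refine ⟨c, ?_⟩
    rw [← hc, hT]
    unfold trForm
    have h1 : (Matrix.of fun i j => (Y i • E0 i) (X j) : Matrix (Fin 3) (Fin 3) (adjoin ℂ S)) =
        Matrix.diagonal Y := by
      ext i j
      rw [Matrix.of_apply, Derivation.smul_apply, smul_eq_mul, hE0, Matrix.diagonal_apply]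
      by_cases hij : i = j
      · rw [if_pos hij, if_pos hij, mul_one]
      · rw [if_neg hij, if_neg hij, mul_zero]
    have h2 : W (fun i => (Y i : K) • E1 i) = (∏ i, (Y i : K)) * W E1 := by
      have h3 := hW (Matrix.diagonal fun i => (Y i : K)) E1
      rw [Matrix.det_diagonal, pow_one] at h3
      rw [← h3]
      congr 1
      funext i
      rw [Finset.sum_eq_single i]
      · rw [Matrix.diagonal_apply_eq]
      · intro j _ hj
        rw [Matrix.diagonal_apply_ne _ (Ne.symm hj), zero_smul]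
      · intro hi
        exact absurd (Finset.mem_univ i) hi
    rw [h1, Matrix.det_diagonal, h2]
    have h4 : (∏ i, (Y i : K)) * W E1 = (∏ i, Y i) • W E1 := by
      rw [Algebra.smul_def, map_prod]
      rfl
    rw [h4, map_smul, smul_eq_mul]

end

end Pool.Agent.K6.H10.AB
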