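import Pool.Agent.K6.H10.AB.Core

/-!
The regular `1`-forms of the threefold are the linear combinations of the four forms `dx / y`.
-/

set_option autoImplicit false
set_option linter.overlappingInstances false
set_option linter.unusedSectionVars false
set_option maxHeartbeats 4000000
set_option synthInstance.maxHeartbeats 400000

open FF IntermediateField

namespace Pool.Agent.K6.H10.AB

open Pool.Agent.W603.LV Pool.Agent.Helper11K9.PC
open Pool.Agent.W602.GT (Divisorial RegAt IsPluri DerReg)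
open Pool.Agent.Helper11K9.EC (dif Reg1 cf cf_reg cf_apply RegForm)

section

variable {K : Type} [Field K] [Algebra ℂ K] {x y : Fin 4 → K} {L : IntermediateField ℂ K}
  {E : Fin 3 → Derivation ℂ K K}

/-- the cross product -/
def cr {R : Type} [CommRing R] (a t : Fin 3 → R) : Fin 3 → R :=
  ![a 1 * t 2 - a 2 * t 1, a 2 * t 0 - a 0 * t 2, a 0 * t 1 - a 1 * t 0]

theorem det_cr (h : Dat x y) (fr : Frame x y L E) (η θ : Derivation ℂ K K →ₗ[K] K) (k : Fin 3) :
    detForm ![η, θ, Th x y k] E = cr (fun i => η (E i)) (fun i => θ (E i)) k := by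
  unfold detForm
  have hE := fr.thE h
  rw [Matrix.det_fin_three]
  fin_cases k <;> simp [Matrix.of_apply, hE, cr] <;> ring

theorem const_of_trace (h : Dat x y) (fr : Frame x y L E) {W : (Fin 3 → Derivation ℂ K K) → K}
    (hW : IsPluri 1 W) (hreg : ∀ Q, Divisorial 3 Q → RegAt Q W) {α β : L}
    (hdec : W E = α + β * y 1) : ∃ c : ℂ, (α : K) = algebraMap ℂ K c := by
  have hL0 : CharZero L := charZero_of_injective_algebraMap (algebraMap ℂ L).injective
  obtain ⟨d, hd, htr⟩ := fr.trace_dec h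
  obtain ⟨c, hc⟩ := fr.tr W hW hreg
  rw [hdec, htr] at hc
  refine ⟨c / d, ?_⟩
  have hd' : (d : L) ≠ 0 := by exact_mod_cast hd
  have h2 : α = algebraMap ℂ L (c / d) := by
    rw [map_div₀, ← hc, map_natCast, mul_comm, mul_div_assoc, div_self hd', mul_one]
  have h3 : (α : K) = algebraMap L K α := rfl
  rw [h3, h2, ← IsScalarTower.algebraMap_apply]

theorem core (h : Dat x y) (fr : Frame x y L E) {η : Derivation ℂ K K →ₗ[K] K}
    (hη : RegForm 3 η) : ∃ (c : Fin 3 → ℂ) (g : K), ∀ δ,
      η δ = ∑ i, algebraMap ℂ K (c i) * Th x y i δ + g * thet (x 1) (y 1) δ := by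
  classical
  have hK0 : CharZero K := charZero_of_injective_algebraMap (algebraMap ℂ K).injective
  have hx0 : ∀ i, x i ≠ 0 := fun i => (ell_ne (h.tr i) (h.eq i)).1
  have hy0 : ∀ i, y i ≠ 0 := fun i => (ell_ne (h.tr i) (h.eq i)).2
  choose α β hdec using fun i => fr.dec (η (E i))
  choose v hv using fun i => (⟨⟨_, fr.vv_mem i⟩, rfl⟩ : ∃ v : L, (v : K) = vv x y i)
  obtain ⟨x1, hx1⟩ : ∃ z : L, (z : K) = x 1 := ⟨⟨_, fr.x1_mem h⟩, rfl⟩
  -- the constants
  have hα : ∀ i, ∃ c : ℂ, (α i : K) = algebraMap ℂ K c := by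
    intro i
    refine const_of_trace h fr (detForm_pluri (Function.update (Th x y) i η))
      (fun Q hQ => detForm_reg fun j => ?_) ((det_upd h fr η i).trans (hdec i))
    by_cases hj : j = i
    · rw [hj, Function.update_self]
      exact hη Q hQ
    · rw [Function.update_of_ne hj]
      exact h.thet_reg _ Q
  choose c hc using hα
  have hκ : ∀ k, ∃ κ : ℂ, x 1 * cr (fun i => (β i : K)) (vv x y) k = algebraMap ℂ K κ := by
    intro k
    have h1 : detForm ![η, thet (x 1) (y 1), Th x y k] E =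
        ((x1 * cr β v k : L) : K) + ((x1 / (x1 ^ 3 + 1) * cr α v k : L) : K) * y 1 := by
      rw [det_cr h fr]
      have e1 : (fun i => η (E i)) = fun i => (α i : K) + β i * y 1 := funext hdec
      have e2 : (fun i => thet (x 1) (y 1) (E i)) = fun i => x 1 / y 1 * vv x y i :=
        funext (fr.th1 h)
      have e3 : ∀ a : Fin 3 → L, ((cr a v k : L) : K) = cr (fun i => (a i : K)) (vv x y) k := by
        intro a
        unfold cr
        fin_cases k <;> simp [hv]
      rw [e1, e2]
      push_cast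
      rw [e3, e3, hx1, ← h.eq 1]
      have hy1 := hy0 1
      unfold cr
      fin_cases k <;> simp <;> field_simp <;> ring
    obtain ⟨κ, hκ⟩ := const_of_trace h fr (detForm_pluri ![η, thet (x 1) (y 1), Th x y k])
      (fun Q hQ => detForm_reg fun j => by
        fin_cases j
        · exact hη Q hQ
        · exact h.thet_reg 1 Q
        · exact h.thet_reg _ Q) h1
    refine ⟨κ, ?_⟩
    rw [← hκ]
    push_cast
    rw [hx1]
    congr 1
    unfold cr
    fin_cases k <;> simp [hv]
  choose κ hκ using hκ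
  have hκ0 : κ = 0 := by
    apply fr.vv_li h
    simp only [← hκ]
    rw [Fin.sum_univ_three]
    simp [cr]
    ring
  have hcr : ∀ k, cr (fun i => (β i : K)) (vv x y) k = 0 := by
    intro k
    have h1 := hκ k
    rw [hκ0, Pi.zero_apply, map_zero] at h1
    exact (mul_eq_zero.1 h1).resolve_left (hx0 1)
  have hv0 : vv x y 0 ≠ 0 := by
    intro h0
    apply (fr.dvv h 0 0).1 rfl
    rw [h0, map_zero]
  have hβ : ∀ i, (β i : K) = β 0 / vv x y 0 * vv x y i := by
    intro i
    have h1 := hcr 1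
    have h2 := hcr 2
    simp [cr] at h1 h2
    fin_cases i
    · simp
      field_simp
    · simp
      field_simp
      linear_combination (-1 : K) * h2
    · simp
      field_simp
      linear_combination h1
  refine ⟨c, (β 0 : K) / vv x y 0 * y 1 ^ 2 / x 1, fun δ => ?_⟩
  have h1 : η δ = ∑ i, Th x y i δ * η (E i) := by
    conv_lhs => rw [← fr.exp δ]
    rw [map_sum]
    exact Finset.sum_congr rfl fun i _ => by rw [map_smul, smul_eq_mul]
  have h2 : thet (x 1) (y 1) δ = ∑ i, Th x y i δ * thet (x 1) (y 1) (E i) := by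
    conv_lhs => rw [← fr.exp δ]
    rw [map_sum]
    exact Finset.sum_congr rfl fun i _ => by rw [map_smul, smul_eq_mul]
  rw [h1, h2, Finset.mul_sum, ← Finset.sum_add_distrib]
  refine Finset.sum_congr rfl fun i _ => ?_
  rw [hdec, hc, fr.th1 h, hβ i]
  have hx1 := hx0 1
  have hy1 := hy0 1
  field_simp

theorem Dat.swap (h : Dat x y) : Dat (x ∘ Equiv.swap 0 1) (y ∘ Equiv.swap 0 1) where
  eq := fun i => h.eq _
  rel := by
    have h1 : Equiv.swap (0 : Fin 4) 1 2 = 2 := by decide
    have h2 : Equiv.swap (0 : Fin 4) 1 3 = 3 := by decide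
    simp only [Function.comp_apply, Equiv.swap_apply_left, Equiv.swap_apply_right, h1, h2]
    rw [mul_comm]
    exact h.rel
  top := by
    rw [(Equiv.swap (0 : Fin 4) 1).surjective.range_comp,
      (Equiv.swap (0 : Fin 4) 1).surjective.range_comp]
    exact h.top
  deg := h.deg
  tr := fun i => h.tr _

theorem Frame.t_li (h : Dat x y) (fr : Frame x y L E) {a b : ℂ}
    (hab : algebraMap ℂ K a * thet (x 1) (y 1) (E 1) = algebraMap ℂ K b *
      thet (x 1) (y 1) (E 2)) : a = 0 ∧ b = 0 := by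
  have hx0 : ∀ i, x i ≠ 0 := fun i => (ell_ne (h.tr i) (h.eq i)).1
  have hy0 : ∀ i, y i ≠ 0 := fun i => (ell_ne (h.tr i) (h.eq i)).2
  rw [fr.th1 h, fr.th1 h] at hab
  have h1 : (![0, a, -b] : Fin 3 → ℂ) = 0 := by
    apply fr.vv_li h
    rw [Fin.sum_univ_three]
    simp only [Matrix.cons_val_zero, Matrix.cons_val_one, Matrix.cons_val, map_zero, zero_mul,
      zero_add, map_neg]
    apply mul_left_cancel₀ (div_ne_zero (hx0 1) (hy0 1))
    linear_combination hab
  have h2 := congrFun h1 1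
  have h3 := congrFun h1 2
  simp only [Matrix.cons_val_one, Matrix.cons_val, Pi.zero_apply] at h2 h3
  exact ⟨h2, neg_eq_zero.1 h3⟩

theorem Frame.t_ne (h : Dat x y) (fr : Frame x y L E) (i : Fin 3) :
    thet (x 1) (y 1) (E i) ≠ 0 := by
  have hx0 : ∀ i, x i ≠ 0 := fun i => (ell_ne (h.tr i) (h.eq i)).1
  have hy0 : ∀ i, y i ≠ 0 := fun i => (ell_ne (h.tr i) (h.eq i)).2
  rw [fr.th1 h]
  refine mul_ne_zero (div_ne_zero (hx0 1) (hy0 1)) fun h0 => ?_
  apply (fr.dvv h i i).1 rfl
  rw [h0, map_zero]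

/-- **The regular `1`-forms.** -/
theorem one_forms (h : Dat x y) {η : Derivation ℂ K K →ₗ[K] K} (hη : RegForm 3 η) :
    ∃ c : Fin 4 → ℂ, ∀ δ, η δ = ∑ i, algebraMap ℂ K (c i) * thet (x i) (y i) δ := by
  classical
  obtain ⟨L, E, fr⟩ := exists_frame h
  obtain ⟨L', E', fr'⟩ := exists_frame h.swap
  obtain ⟨c, g, hc⟩ := core h fr hη
  obtain ⟨m, g', hm⟩ := core h.swap fr' hη
  have hm' : ∀ δ, η δ = algebraMap ℂ K (m 0) * thet (x 1) (y 1) δ +
      algebraMap ℂ K (m 1) * Th x y 1 δ + algebraMap ℂ K (m 2) * Th x y 2 δ +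
      g' * Th x y 0 δ := by
    intro δ
    rw [hm, Fin.sum_univ_three]
    rfl
  have hE := fr.thE h
  have e1 : algebraMap ℂ K (c 1) + g * thet (x 1) (y 1) (E 1) =
      algebraMap ℂ K (m 0) * thet (x 1) (y 1) (E 1) + algebraMap ℂ K (m 1) := by
    have h1 := (hc (E 1)).symm.trans (hm' (E 1))
    rw [Fin.sum_univ_three] at h1
    simpa [hE] using h1
  have e2 : algebraMap ℂ K (c 2) + g * thet (x 1) (y 1) (E 2) =
      algebraMap ℂ K (m 0) * thet (x 1) (y 1) (E 2) + algebraMap ℂ K (m 2) := by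
    have h1 := (hc (E 2)).symm.trans (hm' (E 2))
    rw [Fin.sum_univ_three] at h1
    simpa [hE] using h1
  obtain ⟨h3, h4⟩ := fr.t_li h (a := m 2 - c 2) (b := m 1 - c 1) (by
    rw [map_sub, map_sub]
    linear_combination (-thet (x 1) (y 1) (E 1)) * e2 + thet (x 1) (y 1) (E 2) * e1)
  have h5 : g = algebraMap ℂ K (m 0) := by
    have h6 : (g - algebraMap ℂ K (m 0)) * thet (x 1) (y 1) (E 1) = 0 := by
      have h7 : c 1 = m 1 := (sub_eq_zero.1 h4).symm
      rw [h7] at e1
      linear_combination e1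
    exact sub_eq_zero.1 ((mul_eq_zero.1 h6).resolve_right (fr.t_ne h 1))
  refine ⟨![c 0, m 0, c 1, c 2], fun δ => ?_⟩
  rw [hc δ, Fin.sum_univ_three, Fin.sum_univ_four, h5]
  simp only [Matrix.cons_val_zero, Matrix.cons_val_one, Matrix.cons_val]
  unfold Th
  have s0 : sg 0 = 0 := rfl
  have s1 : sg 1 = 2 := rfl
  have s2 : sg 2 = 3 := rfl
  rw [s0, s1, s2]
  ring

/-- the four forms are linearly independent over the constants -/
theorem theta_li (h : Dat x y) {c : Fin 4 → ℂ}
    (hc : ∀ δ, ∑ i, algebraMap ℂ K (c i) * thet (x i) (y i) δ = 0) : c = 0 := by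
  obtain ⟨L, E, fr⟩ := exists_frame h
  have hE := fr.thE h
  unfold Th at hE
  have key : ∀ i, algebraMap ℂ K (c (sg i)) + algebraMap ℂ K (c 1) * thet (x 1) (y 1) (E i) =
      0 := by
    intro i
    have h1 := hc (E i)
    rw [Fin.sum_univ_four] at h1
    have h2 := hE i 0
    have h3 := hE i 1
    have h4 := hE i 2
    have s0 : sg 0 = 0 := rfl
    have s1 : sg 1 = 2 := rfl
    have s2 : sg 2 = 3 := rfl
    rw [s0] at h2
    rw [s1] at h3
    rw [s2] at h4
    rw [h2, h3, h4] at h1
    fin_cases i <;> simp [sg] at h1 ⊢ <;> linear_combination h1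
  have k0 := key 0
  have k1 := key 1
  have k2 := key 2
  obtain ⟨h3, h4⟩ := fr.t_li h (a := c 3) (b := c 2) (by
    simp only [sg, Matrix.cons_val_one, Matrix.cons_val] at k1 k2
    linear_combination thet (x 1) (y 1) (E 1) * k2 - thet (x 1) (y 1) (E 2) * k1)
  have h5 : c 1 = 0 := by
    simp only [sg, Matrix.cons_val_one, Matrix.cons_val] at k1
    rw [h4, map_zero, zero_add] at k1
    exact (_root_.map_eq_zero _).1 ((mul_eq_zero.1 k1).resolve_right (fr.t_ne h 1))
  have h6 : c 0 = 0 := by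
    simp only [sg, Matrix.cons_val_zero] at k0
    rw [h5, map_zero, zero_mul, add_zero] at k0
    exact (_root_.map_eq_zero _).1 k0
  funext i
  fin_cases i
  · exact h6
  · exact h5
  · exact h4
  · exact h3

end

end Pool.Agent.K6.H10.AB
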