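import Pool.Agent.K6.H10.AB.Base
import Pool.Agent.K6.H10.AB.Forms

/-!
The canonical forms of a product of three elliptic curves `y² = x³ + 1`.
-/

set_option autoImplicit false
set_option linter.overlappingInstances false
set_option linter.unusedSectionVars false
set_option maxHeartbeats 4000000
set_option synthInstance.maxHeartbeats 400000

open FF IntermediateField

namespace Pool.Agent.K6.H10.AB

open Pool.Agent.W603.LV Pool.Agent.Helper11K9.PC
open Pool.Agent.W602.GT (Divisorial RegAt IsPluri DerReg)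
open Pool.Agent.W619.PQ (extForm)

section

variable {K : Type} [Field K] [Algebra ℂ K]

/-- functions which are killed by all derivations are constant -/
theorem const_of_der_all {z : K} (hz : ∀ D : Derivation ℂ K K, D z = 0) :
    ∃ c : ℂ, z = algebraMap ℂ K c := by
  by_cases h : IsAlgebraic ℂ z
  · obtain ⟨c, hc⟩ := alg_const h
    exact ⟨c, hc.symm⟩
  · exfalso
    have h1 : AlgebraicIndepOn ℂ id ({z} : Set K) := by
      have : Unique ({z} : Set K) := Set.uniqueSingleton z
      unfold AlgebraicIndepOn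
      rw [algebraicIndependent_unique_type_iff]
      change Transcendental ℂ ((default : ({z} : Set K)) : K)
      rw [show ((default : ({z} : Set K)) : K) = z from (default : ({z} : Set K)).2]
      exact h
    obtain ⟨t, ht, hb⟩ := exists_isTranscendenceBasis_superset h1
    obtain ⟨D, hD⟩ := Pool.Agent.W602.GT.exists_der (fun i : t => (i : K)) hb (fun _ => 1)
    have h2 := hD ⟨z, ht (Set.mem_singleton z)⟩
    change D z = 1 at h2
    rw [hz D] at h2
    exact zero_ne_one h2

/-- a derivation which kills the generators of the curve kills its function field -/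
theorem EF_le_ker {D : Derivation ℂ K K} {x y : K} (hx : Transcendental ℂ x)
    (hxy : y ^ 2 = x ^ 3 + 1) (h : D x = 0) : EF x y ≤ ker D := by
  unfold EF
  rw [adjoin_le_iff]
  rintro z (rfl | rfl)
  · exact h
  · change D z = 0
    rw [der_y hx hxy, h, mul_zero]

/-- **The canonical forms of a product of three elliptic curves.** -/
theorem prodA {X Y : Fin 3 → K}
    (hXY : ∀ i, Y i ^ 2 = X i ^ 3 + 1) (hX : ∀ i, Transcendental ℂ (X i))
    (htop : adjoin ℂ (Set.range X ∪ Set.range Y) = ⊤) (hn : Algebra.trdeg ℂ K = (3 : ℕ))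
    {ω : (Fin 3 → Derivation ℂ K K) → K} (hω : IsPluri 1 ω)
    (hreg : ∀ P : Place ℂ K, Divisorial 3 P → RegAt P ω)
    {E : Fin 3 → Derivation ℂ K K} (hE : ∀ i j, E i (X j) = if i = j then Y j else 0) :
    ∃ c : ℂ, ω E = algebraMap ℂ K c := by
  classical
  have hK0 : CharZero K := charZero_of_injective_algebraMap (algebraMap ℂ K).injective
  obtain ⟨F, hF⟩ : ∃ F : Fin 3 → IntermediateField ℂ K, F = fun i => EF (X i) (Y i) := ⟨_, rfl⟩
  have hsup : ⨆ i, F i = ⊤ := by
    rw [eq_top_iff, ← htop, adjoin_le_iff]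
    rintro z (⟨i, rfl⟩ | ⟨i, rfl⟩)
    · have h1 : X i ∈ F i := by
        rw [hF]
        exact (ex (X i) (Y i)).2
      exact (le_iSup F i) h1
    · have h1 : Y i ∈ F i := by
        rw [hF]
        exact (ey (X i) (Y i)).2
      exact (le_iSup F i) h1
  subst hF
  have hFF : ∀ i, IsFF ℂ (EF (X i) (Y i)) := fun i => ell_ff (hX i) (hXY i)
  choose D hD hDx using fun i => ell_der (hX i) (hXY i)
  obtain ⟨x, hx⟩ : ∃ x : ∀ i, EF (X i) (Y i), x = fun i => ex (X i) (Y i) := ⟨_, rfl⟩
  have hxt : ∀ i, Transcendental ℂ (x i) := fun i => by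
    rw [hx]
    exact ex_tr (hX i)
  have hxK : ∀ i, (x i : K) = X i := fun i => by rw [hx]; rfl
  have hDx' : ∀ i, D i (x i) = ey (X i) (Y i) := fun i => by rw [hx]; exact hDx i
  have hY0 : ∀ i, Y i ≠ 0 := fun i => (ell_ne (hX i) (hXY i)).2
  have hessK : Algebra.EssFiniteType ℂ K := ess_top (fun i => EF (X i) (Y i)) hsup
  have hxb : IsTranscendenceBasis ℂ (fun i => (x i : K)) :=
    Pool.Agent.W619.PQ.basis_of_iSup _ hsup hn x hxt
  obtain ⟨E0, hE0⟩ := Pool.Agent.W636.PG.exists_duals ℂ K 3 (fun i => (x i : K)) hxb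
  obtain ⟨Ω, hΩ⟩ : ∃ Ω : (Fin 3 → Derivation ℂ K K) → K, Ω = extForm 1 D x (fun _ => 1) :=
    ⟨_, rfl⟩
  have hΩp : IsPluri 1 Ω := by
    rw [hΩ]
    exact Pool.Agent.W619.PQ.extForm_pluri 1 D x _
  have hRD : ∀ i, RegD (D i) (1 : EF (X i) (Y i)) := fun i =>
    ⟨one_ne_zero, fun P => by
      rw [vo_ell (ex_tr (hX i)) (e_eq (hXY i)) (adj_top (X i) (Y i)) (hDx i) P, P.ord_one]⟩
  have hΩr : ∀ P : Place ℂ K, Divisorial 3 P → RegAt P Ω := by
    intro P hP
    rw [hΩ]
    exact ext_reg hD hxt hRD P hP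
  have hΩE : Ω E = 1 := by
    rw [hΩ]
    unfold extForm
    have h1 : (Matrix.of fun j i => E j (algebraMap (EF (X i) (Y i)) K (x i)) :
        Matrix (Fin 3) (Fin 3) K) = Matrix.diagonal Y := by
      ext j i
      rw [Matrix.of_apply]
      change E j (x i : K) = _
      rw [hxK, hE, Matrix.diagonal_apply]
      by_cases h : j = i
      · rw [if_pos h, if_pos h, h]
      · rw [if_neg h, if_neg h]
    rw [h1, Matrix.det_diagonal, pow_one, ← Finset.prod_mul_distrib]
    refine Finset.prod_eq_one fun i _ => ?_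
    rw [hDx', pow_one, one_div, map_inv₀]
    exact inv_mul_cancel₀ (hY0 i)
  -- the ratio
  have hratio : ∀ D', ω D' = ω E * Ω D' := by
    intro D'
    have h1 := Pool.Agent.Y172.pluri_coord hxb hE0 hω D'
    have h2 := Pool.Agent.Y172.pluri_coord hxb hE0 hΩp D'
    have h3 := Pool.Agent.Y172.pluri_coord hxb hE0 hω E
    have h4 := Pool.Agent.Y172.pluri_coord hxb hE0 hΩp E
    rw [hΩE] at h4
    rw [h1, h2, h3]
    linear_combination ((Matrix.of fun i j => D' i (x j : K)).det ^ 1 * ω E0) * h4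
  have hmem : ∀ i, ω E ∈ Bf (fun i => EF (X i) (Y i)) i := by
    intro i
    have hB : Algebra.trdeg ℂ (Bf (fun i => EF (X i) (Y i)) i) = (2 : ℕ) := by
      have h1 := trdeg_Bf (fun i => EF (X i) (Y i)) hsup hn i
      have h2 : Algebra.trdeg ℂ (Bf (fun i => EF (X i) (Y i)) i) + 1 = (2 : ℕ) + 1 := by
        rw [h1]
        norm_num
      exact (Cardinal.add_nat_inj 1).1 (by exact_mod_cast h2)
    refine ratio_mem (n := 2) hn _ hB
      (fun z hz => Bf_closed (fun i => EF (X i) (Y i)) hsup hn i hz) hΩp hΩr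
      ⟨E, by rw [hΩE]; exact one_ne_zero⟩ ?_ hω hreg hratio
    have h1 := span_fib (F := fun i => EF (X i) (Y i)) (D := D) (x := x) hsup hn hD hxt i
      (fun _ => 1) (fun _ _ => one_ne_zero) (J := Unit) (fun _ => 1)
      (fun l hl => reg_ell (ex_tr (hX i)) (e_eq (hXY i)) (adj_top (X i) (Y i)) (hDx i) l hl)
    have h2 : (fun _ : Unit => Ω) = fun _ : Unit => extForm 1 D x
        (Function.update (fun i => (1 : EF (X i) (Y i))) i 1) := by
      funext _
      rw [hΩ]
      congr 1
      exact (Function.update_eq_self i (fun i => (1 : EF (X i) (Y i)))).symm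
    rw [h2]
    exact h1
  -- the derivatives are zero
  have hker : ∀ i, E i (ω E) = 0 := by
    intro i
    have h1 : Bf (fun i => EF (X i) (Y i)) i ≤ ker (E i) := by
      refine Bf_le _ fun j hj => ?_
      refine EF_le_ker (hX j) (hXY j) ?_
      rw [hE, if_neg (Ne.symm hj)]
    exact h1 (hmem i)
  refine const_of_der_all fun D' => ?_
  have h1 : ∀ i, E i = Y i • E0 i := by
    intro i
    have h2 := Pool.Agent.W73.PG.PULL.expand (fun i => (x i : K)) hxb E0 hE0 (E i)
    rw [← h2, Finset.sum_eq_single i]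
    · rw [hxK, hE, if_pos rfl]
    · intro j _ hj
      rw [hxK, hE, if_neg (Ne.symm hj), zero_smul]
    · intro h
      exact absurd (Finset.mem_univ i) h
  have h2 : ∀ i, E0 i (ω E) = 0 := by
    intro i
    have h3 := hker i
    have h4 : E i (ω E) = Y i * E0 i (ω E) := by
      conv_lhs => rw [h1]
      rfl
    rw [h4] at h3
    exact (mul_eq_zero.1 h3).resolve_left (hY0 i)
  have h3 := Pool.Agent.W73.PG.PULL.expand (fun i => (x i : K)) hxb E0 hE0 D'
  rw [← h3, Pool.Agent.Y172.sum_smul_apply]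
  refine Finset.sum_eq_zero fun i _ => ?_
  rw [h2, mul_zero]

end

end Pool.Agent.K6.H10.AB
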