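import Pool.Agent.W602.GT.Defs
import Pool.Agent.W602.GT.KGen

/-!
Two by two minors of two functions which vanish at a place.
-/

set_option autoImplicit false
set_option linter.overlappingInstances false
set_option linter.unusedSectionVars false

open FF

namespace Pool.Agent.K6.H10.AB

open Pool.Agent.W602.GT (Divisorial RegAt IsPluri DerReg)

section

variable {k K : Type} [Field k] [Field K] [Algebra k K] {P : Place k K}

theorem reg_nat (P : Place k K) (n : ℕ) : P.Reg (n : K) := by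
  have h := P.reg_const (n : k)
  rwa [map_natCast] at h

/-- the minors -/
theorem wedge_reg {δ₀ δ₁ : Derivation k K K} (h0 : DerReg P δ₀) (h1 : DerReg P δ₁) {f g s : K}
    (hf : 0 < P.ord f) (hg : 0 < P.ord g) (hs : s ≠ 0) (h : 2 * P.ord s = P.ord f + P.ord g) :
    P.Reg (s⁻¹ * (δ₀ f * δ₁ g - δ₁ f * δ₀ g)) := by
  have hf0 : f ≠ 0 := by
    rintro rfl
    rw [P.ord_zero] at hf
    exact lt_irrefl _ hf
  have hg0 : g ≠ 0 := by
    rintro rfl
    rw [P.ord_zero] at hg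
    exact lt_irrefl _ hg
  obtain ⟨t, ht0, ht⟩ := P.surj
  obtain ⟨m, hm⟩ : ∃ m : ℕ, P.ord f = m + 1 := ⟨(P.ord f - 1).toNat, by omega⟩
  obtain ⟨n, hn⟩ : ∃ n : ℕ, P.ord g = n + 1 := ⟨(P.ord g - 1).toNat, by omega⟩
  obtain ⟨u, hu⟩ : ∃ u : K, u = f / t ^ (m + 1) := ⟨_, rfl⟩
  obtain ⟨w, hw⟩ : ∃ w : K, w = g / t ^ (n + 1) := ⟨_, rfl⟩
  have hfu : f = u * t ^ (m + 1) := by
    rw [hu, div_mul_cancel₀ _ (pow_ne_zero _ ht0)]
  have hgw : g = w * t ^ (n + 1) := by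
    rw [hw, div_mul_cancel₀ _ (pow_ne_zero _ ht0)]
  have hur : P.Reg u := Or.inr (by
    rw [hu, P.ord_div hf0 (pow_ne_zero _ ht0), P.ord_pow, ht, hm]
    push_cast
    omega)
  have hwr : P.Reg w := Or.inr (by
    rw [hw, P.ord_div hg0 (pow_ne_zero _ ht0), P.ord_pow, ht, hn]
    push_cast
    omega)
  have htr : P.Reg t := Or.inr (by omega)
  have hd : ∀ (δ : Derivation k K K) (v : K) (l : ℕ), δ (v * t ^ (l + 1)) =
      t ^ l * (t * δ v + (l + 1 : ℕ) * v * δ t) := by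
    intro δ v l
    rw [Derivation.leibniz, Derivation.leibniz_pow]
    simp only [smul_eq_mul, nsmul_eq_mul, Nat.add_sub_cancel]
    ring
  have key : s⁻¹ * (δ₀ f * δ₁ g - δ₁ f * δ₀ g) = (s⁻¹ * t ^ (m + n + 1)) *
      (t * (δ₀ u * δ₁ w + -(δ₁ u * δ₀ w)) +
        (n + 1 : ℕ) * w * (δ₀ u * δ₁ t + -(δ₁ u * δ₀ t)) +
        (m + 1 : ℕ) * u * (δ₀ t * δ₁ w + -(δ₁ t * δ₀ w))) := by
    rw [hfu, hgw, hd, hd, hd, hd]
    ring
  rw [key]
  refine P.reg_mul (Or.inr ?_) ?_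
  · rw [P.ord_mul (inv_ne_zero hs) (pow_ne_zero _ ht0), P.ord_inv, P.ord_pow, ht]
    push_cast
    omega
  · have a0 := h0 u hur
    have a1 := h1 u hur
    have b0 := h0 w hwr
    have b1 := h1 w hwr
    have c0 := h0 t htr
    have c1 := h1 t htr
    have hmin : ∀ {a b c d : K}, P.Reg a → P.Reg b → P.Reg c → P.Reg d →
        P.Reg (a * b + -(c * d)) := fun ha hb hc hd =>
      P.reg_add (P.reg_mul ha hb) (P.reg_neg (P.reg_mul hc hd))
    exact P.reg_add (P.reg_add (P.reg_mul htr (hmin a0 b1 a1 b0))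
      (P.reg_mul (P.reg_mul (reg_nat P _) hwr) (hmin a0 c1 a1 c0)))
      (P.reg_mul (P.reg_mul (reg_nat P _) hur) (hmin c0 b1 c1 b0))

/-- the derivative of a function `s ^ 2 * w` is divisible by `s` -/
theorem sq_reg {δ : Derivation k K K} (h0 : DerReg P δ) {f w s : K} (hs : s ≠ 0)
    (hsr : P.Reg s) (hw : P.Reg w) (hf : f = s ^ 2 * w) : P.Reg (s⁻¹ * δ f) := by
  have key : s⁻¹ * δ f = (2 : ℕ) * δ s * w + s * δ w := by
    rw [hf, Derivation.leibniz, Derivation.leibniz_pow]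
    simp only [smul_eq_mul, nsmul_eq_mul]
    field_simp
    push_cast
    ring
  rw [key]
  exact P.reg_add (P.reg_mul (P.reg_mul (reg_nat P _) (h0 s hsr)) hw) (P.reg_mul hsr (h0 w hw))

end

end Pool.Agent.K6.H10.AB
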