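import Pool.Agent.K6.H10.AB.Alt
import Pool.Agent.K6.H10.AB.Wedge

/-!
Seven linearly independent regular `2`-forms on the threefold.
-/

set_option autoImplicit false
set_option linter.overlappingInstances false
set_option linter.unusedSectionVars false
set_option maxHeartbeats 4000000
set_option synthInstance.maxHeartbeats 400000

open FF IntermediateField

namespace Pool.Agent.K6.H10.AB

open Pool.Agent.W603.LV Pool.Agent.Helper11K9.PC
open Pool.Agent.W602.GT (Divisorial RegAt IsPluri DerReg)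
open Pool.Agent.Helper11K9.EC (dif Reg1 cf cf_reg cf_apply RegForm)

section

attribute [local instance] holAG

variable {K : Type} [Field K] [Algebra ℂ K] {x y : Fin 4 → K} {L : IntermediateField ℂ K}
  {E : Fin 3 → Derivation ℂ K K}

/-- the second coordinate is a unit at the zeros of the first one -/
theorem unit_y {a b : K} (ha0 : a ≠ 0) (hab : b ^ 2 = a ^ 3 + 1) {P : Place ℂ K}
    (ha : 0 < P.ord a) : P.Reg b⁻¹ := by
  have h1 := P.ord_add_eq (f := 1) (g := a ^ 3) one_ne_zero (pow_ne_zero _ ha0) (by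
    rw [P.ord_one, P.ord_pow]
    push_cast
    omega)
  right
  rw [add_comm, ← hab, P.ord_one, P.ord_pow] at h1
  rw [P.ord_inv]
  have h2 := h1.2
  push_cast at h2
  omega

/-- the seventh form -/
noncomputable def om0 (x y : Fin 4 → K) : (Derivation ℂ K K) [⋀^Fin 2]→ₗ[K] K :=
  (x 2 * x 3)⁻¹ • detAlt ![thet (x 0) (y 0), thet (x 1) (y 1)]

theorem detAlt_two (η θ : Derivation ℂ K K →ₗ[K] K) (D : Fin 2 → Derivation ℂ K K) :
    detAlt ![η, θ] D = η (D 0) * θ (D 1) - θ (D 0) * η (D 1) := by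
  rw [detAlt_apply]
  unfold detForm
  rw [Matrix.det_fin_two]
  rfl

theorem om0_mem (h : Dat x y) : om0 x y ∈ AF K 3 2 := by
  intro P _ D hD
  have hx0 : ∀ i, x i ≠ 0 := fun i => (ell_ne (h.tr i) (h.eq i)).1
  obtain ⟨s, hs⟩ : ∃ s, s = x 2 * x 3 := ⟨_, rfl⟩
  have hs0 : s ≠ 0 := by
    rw [hs]
    exact mul_ne_zero (hx0 2) (hx0 3)
  have hrel : x 0 * x 1 = s ^ 2 := by
    rw [hs]
    exact h.rel
  have hord : 2 * P.ord s = P.ord (x 0) + P.ord (x 1) := by
    rw [← P.ord_mul (hx0 0) (hx0 1), hrel, P.ord_pow]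
    push_cast
    ring
  have hθ : ∀ i j, P.Reg (thet (x i) (y i) (D j)) := fun i j => h.thet_reg i P _ (hD j)
  have hval : om0 x y D = s⁻¹ * (thet (x 0) (y 0) (D 0) * thet (x 1) (y 1) (D 1) -
      thet (x 1) (y 1) (D 0) * thet (x 0) (y 0) (D 1)) := by
    unfold om0
    rw [AlternatingMap.smul_apply, detAlt_two, smul_eq_mul, hs]
  rw [hval]
  by_cases hs1 : P.ord s ≤ 0
  · refine P.reg_mul (Or.inr ?_) ?_
    · rw [P.ord_inv]
      omega
    · rw [sub_eq_add_neg]
      exact P.reg_add (P.reg_mul (hθ 0 0) (hθ 1 1)) (P.reg_neg (P.reg_mul (hθ 1 0) (hθ 0 1)))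
  · have hsr : P.Reg s := Or.inr (by omega)
    by_cases h0 : 0 < P.ord (x 0)
    · by_cases h1 : 0 < P.ord (x 1)
      · have e : s⁻¹ * (thet (x 0) (y 0) (D 0) * thet (x 1) (y 1) (D 1) -
            thet (x 1) (y 1) (D 0) * thet (x 0) (y 0) (D 1)) = (y 0)⁻¹ * (y 1)⁻¹ *
            (s⁻¹ * (D 0 (x 0) * D 1 (x 1) - D 1 (x 0) * D 0 (x 1))) := by
          simp only [thet_apply]
          ring
        rw [e]
        exact P.reg_mul (P.reg_mul (unit_y (hx0 0) (h.eq 0) h0) (unit_y (hx0 1) (h.eq 1) h1))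
          (wedge_reg (hD 0) (hD 1) h0 h1 hs0 hord)
      · have hq : ∀ j, P.Reg (s⁻¹ * thet (x 0) (y 0) (D j)) := by
          intro j
          have e : s⁻¹ * thet (x 0) (y 0) (D j) = (y 0)⁻¹ * (s⁻¹ * D j (x 0)) := by
            rw [thet_apply]
            ring
          rw [e]
          refine P.reg_mul (unit_y (hx0 0) (h.eq 0) h0) (sq_reg (hD j) hs0 hsr (w := (x 1)⁻¹)
            (Or.inr (by rw [P.ord_inv]; omega)) ?_)
          rw [← hrel, mul_assoc, mul_inv_cancel₀ (hx0 1), mul_one]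
        have e : s⁻¹ * (thet (x 0) (y 0) (D 0) * thet (x 1) (y 1) (D 1) -
            thet (x 1) (y 1) (D 0) * thet (x 0) (y 0) (D 1)) =
            (s⁻¹ * thet (x 0) (y 0) (D 0)) * thet (x 1) (y 1) (D 1) +
            -(thet (x 1) (y 1) (D 0) * (s⁻¹ * thet (x 0) (y 0) (D 1))) := by ring
        rw [e]
        exact P.reg_add (P.reg_mul (hq 0) (hθ 1 1)) (P.reg_neg (P.reg_mul (hθ 1 0) (hq 1)))
    · have h1 : 0 < P.ord (x 1) := by omega
      have hq : ∀ j, P.Reg (s⁻¹ * thet (x 1) (y 1) (D j)) := by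
        intro j
        have e : s⁻¹ * thet (x 1) (y 1) (D j) = (y 1)⁻¹ * (s⁻¹ * D j (x 1)) := by
          rw [thet_apply]
          ring
        rw [e]
        refine P.reg_mul (unit_y (hx0 1) (h.eq 1) h1) (sq_reg (hD j) hs0 hsr (w := (x 0)⁻¹)
          (Or.inr (by rw [P.ord_inv]; omega)) ?_)
        rw [← hrel, mul_comm (x 0), mul_assoc, mul_inv_cancel₀ (hx0 0), mul_one]
      have e : s⁻¹ * (thet (x 0) (y 0) (D 0) * thet (x 1) (y 1) (D 1) -
          thet (x 1) (y 1) (D 0) * thet (x 0) (y 0) (D 1)) =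
          thet (x 0) (y 0) (D 0) * (s⁻¹ * thet (x 1) (y 1) (D 1)) +
          -((s⁻¹ * thet (x 1) (y 1) (D 0)) * thet (x 0) (y 0) (D 1)) := by ring
      rw [e]
      exact P.reg_add (P.reg_mul (hθ 0 0) (hq 1)) (P.reg_neg (P.reg_mul (hq 0) (hθ 0 1)))

/-- exterior products of the `1`-forms -/
noncomputable def pf (h : Dat x y) (i j : Fin 4) : AF K 3 2 :=
  ⟨detAlt ![thet (x i) (y i), thet (x j) (y j)], fun P _ D hD =>
    detForm_reg (fun l => by
      fin_cases l
      · exact h.thet_reg i P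
      · exact h.thet_reg j P) D hD⟩

theorem pf_apply (h : Dat x y) (i j : Fin 4) (a b : Derivation ℂ K K) :
    (pf h i j).1 ![a, b] = thet (x i) (y i) a * thet (x j) (y j) b -
      thet (x j) (y j) a * thet (x i) (y i) b := by
  unfold pf
  rw [detAlt_two]
  rfl

theorem om0_apply (a b : Derivation ℂ K K) :
    om0 x y ![a, b] = (x 2 * x 3)⁻¹ * (thet (x 0) (y 0) a * thet (x 1) (y 1) b -
      thet (x 1) (y 1) a * thet (x 0) (y 0) b) := by
  unfold om0
  rw [AlternatingMap.smul_apply, detAlt_two, smul_eq_mul]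
  rfl

theorem Frame.split (h : Dat x y) (fr : Frame x y L E) {α β : K} (hα : α ∈ L) (hβ : β ∈ L)
    (hab : α + β * y 1 = 0) : α = 0 ∧ β = 0 := by
  have hβ0 : β = 0 := by
    by_contra hb
    apply fr.y1_not_mem h
    have h1 : y 1 = -α / β := by
      rw [eq_div_iff hb]
      linear_combination hab
    rw [h1]
    exact div_mem (neg_mem hα) hβ
  rw [hβ0, zero_mul, add_zero] at hab
  exact ⟨hab, hβ0⟩

/-- the seven forms -/
noncomputable def sev (h : Dat x y) : Fin 7 → AF K 3 2 :=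
  ![pf h 0 2, pf h 0 3, pf h 2 3, pf h 0 1, pf h 2 1, pf h 3 1, ⟨om0 x y, om0_mem h⟩]

theorem sev_li (h : Dat x y) : LinearIndependent ℂ (sev h) := by
  obtain ⟨L, E, fr⟩ := exists_frame h
  have hx0 : ∀ i, x i ≠ 0 := fun i => (ell_ne (h.tr i) (h.eq i)).1
  have hy0 : ∀ i, y i ≠ 0 := fun i => (ell_ne (h.tr i) (h.eq i)).2
  have hE := fr.thE h
  unfold Th at hE
  have s0 : sg 0 = 0 := rfl
  have s1 : sg 1 = 2 := rfl
  have s2 : sg 2 = 3 := rfl
  have t0 : ∀ i, thet (x 0) (y 0) (E i) = if i = 0 then 1 else 0 := fun i => by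
    have h1 := hE i 0
    rwa [s0] at h1
  have t2 : ∀ i, thet (x 2) (y 2) (E i) = if i = 1 then 1 else 0 := fun i => by
    have h1 := hE i 1
    rwa [s1] at h1
  have t3 : ∀ i, thet (x 3) (y 3) (E i) = if i = 2 then 1 else 0 := fun i => by
    have h1 := hE i 2
    rwa [s2] at h1
  obtain ⟨w, hw⟩ : ∃ w, w = x 1 / (x 1 ^ 3 + 1) := ⟨_, rfl⟩
  have hwm : w ∈ L := by
    rw [hw]
    exact div_mem (fr.x1_mem h) (add_mem (pow_mem (fr.x1_mem h) 3) (one_mem L))
  have hw0 : w ≠ 0 := by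
    rw [hw, ← h.eq 1]
    exact div_ne_zero (hx0 1) (pow_ne_zero _ (hy0 1))
  have t1 : ∀ i, thet (x 1) (y 1) (E i) = w * vv x y i * y 1 := by
    intro i
    rw [fr.th1 h, hw, ← h.eq 1]
    have := hy0 1
    field_simp
  have hcm : ∀ c : ℂ, algebraMap ℂ K c ∈ L := fun c => L.algebraMap_mem c
  have hsm : (x 2 * x 3)⁻¹ ∈ L := inv_mem (mul_mem (fr.memx 1) (fr.memx 2))
  rw [Fintype.linearIndependent_iff]
  intro c hc
  have hval : ∀ a b, algebraMap ℂ K (c 0) * (pf h 0 2).1 ![a, b] +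
      algebraMap ℂ K (c 1) * (pf h 0 3).1 ![a, b] + algebraMap ℂ K (c 2) * (pf h 2 3).1 ![a, b] +
      algebraMap ℂ K (c 3) * (pf h 0 1).1 ![a, b] + algebraMap ℂ K (c 4) * (pf h 2 1).1 ![a, b] +
      algebraMap ℂ K (c 5) * (pf h 3 1).1 ![a, b] + algebraMap ℂ K (c 6) * om0 x y ![a, b] =
      0 := by
    intro a b
    have h2 := congrArg (fun ω : AF K 3 2 => ω.1 ![a, b]) hc
    change (∑ i, c i • sev h i : AF K 3 2).1 ![a, b] = (0 : K) at h2
    rw [← h2, hol_sum, Fin.sum_univ_seven]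
    simp only [hol_smul]
    rfl
  simp only [pf_apply, om0_apply] at hval
  have k01 := hval (E 0) (E 1)
  have k02 := hval (E 0) (E 2)
  have k12 := hval (E 1) (E 2)
  simp only [t0, t1, t2, t3] at k01 k02 k12
  simp at k01 k02 k12
  -- the third equation
  obtain ⟨a1, a2⟩ := fr.split h (α := algebraMap ℂ K (c 2))
    (β := w * (algebraMap ℂ K (c 4) * vv x y 2 - algebraMap ℂ K (c 5) * vv x y 1)) (hcm _)
    (mul_mem hwm (sub_mem (mul_mem (hcm _) (fr.vv_mem 2)) (mul_mem (hcm _) (fr.vv_mem 1))))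
    (by linear_combination k12)
  have a3 := (mul_eq_zero.1 a2).resolve_left hw0
  have a4 : (![0, -c 5, c 4] : Fin 3 → ℂ) = 0 := by
    apply fr.vv_li h
    rw [Fin.sum_univ_three]
    simp only [Matrix.cons_val_zero, Matrix.cons_val_one, Matrix.cons_val, map_zero, zero_mul,
      zero_add, map_neg]
    linear_combination a3
  have c4 : c 4 = 0 := congrFun a4 2
  have c5 : c 5 = 0 := neg_eq_zero.1 (congrFun a4 1)
  have c2 : c 2 = 0 := (_root_.map_eq_zero _).1 a1
  rw [c4, map_zero] at k01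
  rw [c5, map_zero] at k02
  -- the first equation
  obtain ⟨b1, b2⟩ := fr.split h (α := algebraMap ℂ K (c 0))
    (β := w * vv x y 1 * (algebraMap ℂ K (c 3) + algebraMap ℂ K (c 6) * (x 2 * x 3)⁻¹)) (hcm _)
    (mul_mem (mul_mem hwm (fr.vv_mem 1)) (add_mem (hcm _) (mul_mem (hcm _) hsm)))
    (by
      rw [mul_inv]
      linear_combination k01)
  have hv1 : vv x y 1 ≠ 0 := by
    intro h0
    apply (fr.dvv h 1 1).1 rfl
    rw [h0, map_zero]
  have b3 := (mul_eq_zero.1 b2).resolve_left (mul_ne_zero hw0 hv1)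
  have b4 : algebraMap ℂ K (c 3) * (x 2 * x 3) + algebraMap ℂ K (c 6) = 0 := by
    have h1 := hx0 2
    have h2 := hx0 3
    field_simp at b3
    linear_combination b3
  have c3 : c 3 = 0 := by
    have h1 := congrArg (E 1) b4
    have e1 : E 1 (x 2) = y 2 := by
      have := fr.val 1 1
      rwa [s1, if_pos rfl] at this
    have e2 : E 1 (x 3) = 0 := by
      have := fr.val 1 2
      rwa [s2, if_neg (by decide)] at this
    rw [map_add, Derivation.leibniz, (E 1).map_algebraMap, (E 1).map_algebraMap,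
      Derivation.leibniz, e1, e2, map_zero, smul_zero, smul_zero, zero_add, add_zero, add_zero,
      smul_eq_mul, smul_eq_mul] at h1
    exact (_root_.map_eq_zero _).1
      ((mul_eq_zero.1 h1).resolve_right (mul_ne_zero (hx0 3) (hy0 2)))
  have c6 : c 6 = 0 := by
    rw [c3, map_zero, zero_mul, zero_add] at b4
    exact (_root_.map_eq_zero _).1 b4
  have c0 : c 0 = 0 := (_root_.map_eq_zero _).1 b1
  have c1 : c 1 = 0 := by
    rw [c3, c6, map_zero] at k02
    simp only [zero_mul, add_zero, neg_zero] at k02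
    exact (_root_.map_eq_zero _).1 k02
  intro i
  fin_cases i
  · exact c0
  · exact c1
  · exact c2
  · exact c3
  · exact c4
  · exact c5
  · exact c6

theorem seven_le (h : Dat x y) : 7 ≤ hodge K 3 2 := by
  have hfin := finite_two h
  rw [hodge_eq]
  have h1 := (sev_li h).fintype_card_le_finrank
  rwa [Fintype.card_fin] at h1

/-- the constant functions -/
theorem one_le (h : Dat x y) : 1 ≤ hodge K 3 0 := by
  have hfin := finite_zero h
  rw [hodge_eq]
  have h1 : AlternatingMap.constOfIsEmpty K (Derivation ℂ K K) (Fin 0) (1 : K) ∈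
      AF K 3 0 := fun P _ D _ => by
    rw [AlternatingMap.constOfIsEmpty_apply]
    exact P.reg_one
  have h2 : Nontrivial (AF K 3 0) := by
    refine ⟨⟨⟨_, h1⟩, 0, fun h3 => ?_⟩⟩
    have h4 := congrArg (fun ω : AF K 3 0 => ω.1 Fin.elim0) h3
    exact one_ne_zero h4
  exact Module.finrank_pos

/-- **The inequality.** -/
theorem ineq (h : Dat x y) : (0 : ℤ) <
    (geometricGenus K 3 : ℤ) - (chiCanonical K 3 + (irregularity K 3 : ℤ) - 1) := by
  have h1 := seven_le h
  have h2 := one_le h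
  have h3 := (irr_eq h).2
  have h4 : hodge K 3 1 = 4 := h3
  unfold geometricGenus chiCanonical
  rw [h3, Finset.sum_range_succ, Finset.sum_range_succ, Finset.sum_range_succ,
    Finset.sum_range_succ, Finset.sum_range_zero]
  norm_num
  rw [h4]
  omega

end

end Pool.Agent.K6.H10.AB
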